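import Pool.Agent.J4.H48.BC.Rec
import Pool.Agent.J4.H48.RQ.Pair

/-! The numbers of ideals of `K` in terms of those of `F`. -/

set_option autoImplicit false
set_option linter.style.haveILetI false
set_option linter.unusedSectionVars false

namespace Pool.Agent.J4.H48.BC
open NumberField Module IntermediateField Pool.Agent.K4H33.SK Pool.Agent.J4.H48.RQ

/-- Relative quadratic extensions. -/
lemma quadRel {F K : IntermediateField ℚ Qbar} [NumberField F] [NumberField K] (hle : F ≤ K)
    (hdeg : finrank ℚ K = 2 * finrank ℚ F) {σ τ : GQ} (hσ : Fixes F σ) (hτ : Fixes F τ)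
    (hσK : ¬ Fixes K σ) (hτK : ¬ Fixes K τ) : Fixes K (σ * τ) := by
  haveI : FiniteDimensional ℚ F := inferInstance
  haveI : FiniteDimensional ℚ K := inferInstance
  let M : IntermediateField F Qbar := IntermediateField.extendScalars hle
  haveI i1 : FiniteDimensional ℚ ↥K := inferInstance
  haveI i4 : FiniteDimensional ℚ M := i1
  haveI i5 : IsScalarTower ℚ F M := inferInstance
  haveI i7 : FiniteDimensional F M := FiniteDimensional.right ℚ F M
  have hd2 : finrank F M = 2 := by
    have h1 := finrank_mul_finrank ℚ F M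
    have h2 : finrank ℚ M = 2 * finrank ℚ F := hdeg
    rw [h2, mul_comm 2] at h1
    exact Nat.eq_of_mul_eq_mul_left finrank_pos h1
  haveI : Algebra.IsQuadraticExtension F M := ⟨hd2⟩
  haveI i6 : Normal F M := Algebra.IsQuadraticExtension.normal F M
  haveI i8 : IsGalois F M := ⟨⟩
  have hc : Nat.card (M ≃ₐ[F] M) = 2 := by rw [IsGalois.card_aut_eq_finrank, hd2]
  haveI : Fact (Nat.Prime 2) := ⟨Nat.prime_two⟩
  haveI i9 : Finite (M ≃ₐ[F] M) := Nat.finite_of_card_ne_zero (by rw [hc]; norm_num)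
  let r : F.fixingSubgroup →* (M ≃ₐ[F] M) :=
    (AlgEquiv.restrictNormalHom M).comp (IntermediateField.fixingSubgroupEquiv F).toMonoidHom
  have hr : ∀ (g : F.fixingSubgroup) (x : M), ((r g x : M) : Qbar) = (g : GQ) x := by
    intro g x
    exact AlgEquiv.restrictNormal_commutes (IntermediateField.fixingSubgroupEquiv F g) M x
  have h1 : ∀ g : F.fixingSubgroup, r g = 1 ↔ Fixes K (g : GQ) := by
    intro g
    constructor
    · intro h x hx
      have e1 := hr g ⟨x, hx⟩
      rw [h] at e1
      exact e1.symm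
    · intro h
      ext x
      exact (hr g x).trans (h _ x.2)
  set s : F.fixingSubgroup := ⟨σ, fixes_iff.1 hσ⟩ with hs
  set t : F.fixingSubgroup := ⟨τ, fixes_iff.1 hτ⟩ with ht
  have hs1 : r s ≠ 1 := fun h => hσK ((h1 s).1 h)
  have ht1 : r t ≠ 1 := fun h => hτK ((h1 t).1 h)
  have h3 : (r s) ^ 2 = 1 := by rw [← hc]; exact pow_card_eq_one'
  have h5 := mem_zpowers_of_prime_card hc (g' := r t) hs1
  have h6 : r t ∈ Submonoid.powers (r s) := mem_powers_iff_mem_zpowers.2 h5
  obtain ⟨n, hn⟩ := h6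
  have hn : (r s) ^ n = r t := hn
  have h7 : r (s * t) = 1 := by
    rw [map_mul]
    rcases Nat.even_or_odd' n with ⟨m, rfl | rfl⟩
    · rw [pow_mul, h3, one_pow] at hn
      exact absurd hn.symm ht1
    · rw [pow_add, pow_mul, h3, one_pow, one_mul, pow_one] at hn
      rw [← hn, ← pow_two, h3]
  exact (h1 (s * t)).1 h7

section

variable {F K H H₁ M : IntermediateField ℚ Qbar} [NumberField F] [NumberField K] [NumberField H]
  [NumberField M] {Q : Type} [CommGroup Q] [Fintype Q] (D : GD F H Q)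

open Classical in
/-- The sign of the quadratic character of `K`. -/
noncomputable def sg (K : IntermediateField ℚ Qbar) (x : Q) : ℤ :=
  if Fixes K (D.lift x) then 1 else -1

theorem sg_mul (hFK : F ≤ K) (hdeg : finrank ℚ K = 2 * finrank ℚ F) (hKH : K ≤ H) (x y : Q) :
    sg D K (x * y) = sg D K x * sg D K y := by
  classical
  have h1 : Fixes K (D.lift (x * y)) ↔ Fixes K (D.lift x * D.lift y) := by
    refine D.fix_iff hKH (D.lift_fix _) ((D.lift_fix _).mul (D.lift_fix _)) ?_
    rw [D.q_lift, D.q_mul _ _ (D.lift_fix _) (D.lift_fix _), D.q_lift, D.q_lift]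
  unfold sg
  by_cases hx : Fixes K (D.lift x) <;> by_cases hy : Fixes K (D.lift y)
  · rw [if_pos hx, if_pos hy, if_pos (h1.2 (hx.mul hy)), one_mul]
  · rw [if_pos hx, if_neg hy, if_neg, one_mul]
    intro h
    apply hy
    have h2 := hx.inv.mul (h1.1 h)
    rwa [inv_mul_cancel_left] at h2
  · rw [if_neg hx, if_pos hy, if_neg, mul_one]
    intro h
    apply hx
    have h2 := (h1.1 h).mul hy.inv
    rwa [mul_inv_cancel_right] at h2
  · rw [if_neg hx, if_neg hy, if_pos (h1.2 (quadRel hFK hdeg (D.lift_fix _) (D.lift_fix _) hx hy))]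
    norm_num

lemma sg_cases (x : Q) : sg D K x = 1 ∨ sg D K x = -1 := by
  unfold sg
  split_ifs
  · exact Or.inl rfl
  · exact Or.inr rfl

lemma sg_one_iff (x : Q) : sg D K x = 1 ↔ Fixes K (D.lift x) := by
  unfold sg
  split_ifs with h
  · simp [h]
  · simp [h]

open Classical in
/-- The projection to the subgroup of `K`. -/
noncomputable def pr (K : IntermediateField ℚ Qbar) (c : Q) (x : Q) : Q :=
  if sg D K x = 1 then x else c * x

variable {D}

lemma pr_mul {c : Q} (hcc : c * c = 1) (hmul : ∀ x y : Q, sg D K (x * y) = sg D K x * sg D K y)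
    (x y : Q) : pr D K c (x * y) = pr D K c x * pr D K c y := by
  unfold pr
  rw [hmul]
  rcases sg_cases D (K := K) x with hx | hx <;> rcases sg_cases D (K := K) y with hy | hy <;>
    simp only [hx, hy] <;> norm_num
  · rw [mul_left_comm]
  · rw [mul_assoc]
  · rw [mul_mul_mul_comm, hcc, one_mul]

lemma pr_eq_iff {c : Q} (hcc : c * c = 1) (hc : sg D K c = -1)
    (hmul : ∀ x y : Q, sg D K (x * y) = sg D K x * sg D K y) (x y : Q) :
    pr D K c x = pr D K c y ↔ x = y ∨ x = c * y := by
  have hcx : ∀ x, c * (c * x) = x := fun x => by rw [← mul_assoc, hcc, one_mul]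
  have hs : ∀ x, sg D K (c * x) = -sg D K x := fun x => by rw [hmul, hc]; ring
  constructor
  · unfold pr
    rcases sg_cases D (K := K) x with hx | hx <;> rcases sg_cases D (K := K) y with hy | hy <;>
      simp only [hx, hy] <;> norm_num
    · intro h; exact Or.inl h
    · intro h; exact Or.inr h
    · intro h; exact Or.inr (by rw [← h, hcx])
    · intro h; exact Or.inl h
  · rintro (rfl | rfl)
    · rfl
    · unfold pr
      rw [hs]
      rcases sg_cases D (K := K) y with hy | hy <;> simp only [hy] <;> norm_num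
      exact hcx y

lemma pr_self {c x : Q} (h : sg D K x = 1) : pr D K c x = x := if_pos h

/-- **The numbers of ideals of `K`.** -/
theorem cnt_K (hFK : F ≤ K) (hdeg : finrank ℚ K = 2 * finrank ℚ F) (hKH : K ≤ H) (hHM : H ≤ M)
    (hst : ∀ σ : GQ, Fixes F σ → ∀ x ∈ M, σ x ∈ M) {f : ℕ} (hU : Unram M f) {artF : Ideal (𝓞 F) → GQ}
    {artK : Ideal (𝓞 K) → GQ} (hartF : IsArtin F M (Ideal.span {(f : 𝓞 F)}) artF)
    (hartK : IsArtin K M (Ideal.span {(f : 𝓞 K)}) artK) {c : GQ} (hcF : Fixes F c)
    (hcK : ¬ Fixes K c) (hcc : c * c = 1) (hH₁H : H₁ ≤ H) (hcH₁ : Fixes H₁ c)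
    (hall : ∀ t : GQ, Fixes H₁ t → (∀ x ∈ H, t x = x) ∨ (∀ x ∈ H, t x = c x)) (y : Q)
    (hy : Fixes K (D.lift y)) {n : ℕ} (hn : n ≠ 0) :
    (cnt K H (Ideal.span {(f : 𝓞 K)}) artK (D.lift y) n : ℤ) =
      ∑ x : Q, ∑ i ∈ n.divisorsAntidiagonal, sg D K x *
        ((cnt F H₁ (Ideal.span {(f : 𝓞 F)}) artF (D.lift (y * x⁻¹)) i.1 : ℤ) *
          (cnt F H (Ideal.span {(f : 𝓞 F)}) artF (D.lift x) i.2 : ℤ)) := by
  classical
  have hmul := sg_mul D hFK hdeg hKH
  set b : Q := D.q c with hb
  have hbb : b * b = 1 := by rw [hb, ← D.q_mul _ _ hcF hcF, hcc, D.q_one]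
  have hsb : sg D K b = -1 := by
    rcases sg_cases D (K := K) b with h | h
    · exfalso
      rw [sg_one_iff] at h
      exact hcK ((D.fix_iff hKH (D.lift_fix _) hcF (D.q_lift _)).1 h)
    · exact h
  let R := MonoidAlgebra ℤ Q
  let pH : Q →* Q :=
    { toFun := pr D K b
      map_one' := by
        have h1 := pr_mul (D := D) (K := K) hbb hmul 1 1
        rw [mul_one] at h1
        exact mul_eq_left.1 h1.symm
      map_mul' := pr_mul hbb hmul }
  let sH : Q →* ℤ :=
    { toFun := sg D K
      map_one' := by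
        rw [sg_one_iff]
        exact (D.fix_iff hKH (D.lift_fix _) (Fixes.one F) (by rw [D.q_lift, D.q_one])).2
          (Fixes.one K)
      map_mul' := hmul }
  let ψp : Q →* R :=
    { toFun := fun x => MonoidAlgebra.single (pH x) 1
      map_one' := by rw [map_one]; rfl
      map_mul' := fun x y => by rw [map_mul, MonoidAlgebra.single_mul_single, one_mul] }
  let ψm : Q →* R :=
    { toFun := fun x => MonoidAlgebra.single (pH x) (sH x)
      map_one' := by rw [map_one, map_one]; rfl
      map_mul' := fun x y => by rw [map_mul, map_mul, MonoidAlgebra.single_mul_single] }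
  have hcmp := compare D hFK hdeg hKH hHM hst hU hartF hartK ψp ψm (fun x hx => by
      show (MonoidAlgebra.single (pH x) (sH x) : R) = MonoidAlgebra.single (pH x) 1
      have : sH x = 1 := (sg_one_iff D x).2 hx
      rw [this]) (fun x hx => by
      show (MonoidAlgebra.single (pH x) (sH x) : R) = -MonoidAlgebra.single (pH x) 1
      have : sH x = -1 := by
        rcases sg_cases D (K := K) x with h | h
        · exact absurd ((sg_one_iff D x).1 h) hx
        · exact h
      rw [this]
      exact MonoidAlgebra.single_neg _ _) hn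
  have hmul1 : ∀ (m : ℕ) (a : Q) (r : ℤ), (m : R) * MonoidAlgebra.single a r =
      MonoidAlgebra.single a ((m : ℤ) * r) := by
    intro m a r
    rw [MonoidAlgebra.natCast_def, MonoidAlgebra.single_mul_single, one_mul]
  let L : R →+ ℤ := (Finsupp.applyAddHom y).comp
    (MonoidAlgebra.coeffAddEquiv (R := ℤ) (M := Q)).toAddMonoidHom
  have hL : ∀ (a : Q) (r : ℤ), L (MonoidAlgebra.single a r) = if a = y then r else 0 := by
    intro a r
    exact Finsupp.single_apply
  set cF : Q → ℕ → ℤ := fun x m => (cnt F H (Ideal.span {(f : 𝓞 F)}) artF (D.lift x) m : ℤ)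
    with hcFdef
  set cK : Q → ℤ := fun x => (cnt K H (Ideal.span {(f : 𝓞 K)}) artK (D.lift x) n : ℤ)
    with hcKdef
  have e1 : AA D ψp K (Ideal.span {(f : 𝓞 K)}) artK n =
      ∑ x : Q, MonoidAlgebra.single (pH x) (cK x) := by
    rw [AA_apply D ψp hn]
    refine Finset.sum_congr rfl fun x _ => ?_
    show ((cnt K H (Ideal.span {(f : 𝓞 K)}) artK (D.lift x) n : ℕ) : R) *
      MonoidAlgebra.single (pH x) 1 = _
    rw [hmul1, mul_one]
  have e2 : ∀ m, m ≠ 0 → AA D ψp F (Ideal.span {(f : 𝓞 F)}) artF m =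
      ∑ x : Q, MonoidAlgebra.single (pH x) (cF x m) := by
    intro m hm
    rw [AA_apply D ψp hm]
    refine Finset.sum_congr rfl fun x _ => ?_
    show ((cnt F H (Ideal.span {(f : 𝓞 F)}) artF (D.lift x) m : ℕ) : R) *
      MonoidAlgebra.single (pH x) 1 = _
    rw [hmul1, mul_one]
  have e3 : ∀ m, m ≠ 0 → AA D ψm F (Ideal.span {(f : 𝓞 F)}) artF m =
      ∑ x : Q, MonoidAlgebra.single (pH x) (cF x m * sg D K x) := by
    intro m hm
    rw [AA_apply D ψm hm]
    refine Finset.sum_congr rfl fun x _ => ?_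
    show ((cnt F H (Ideal.span {(f : 𝓞 F)}) artF (D.lift x) m : ℕ) : R) *
      MonoidAlgebra.single (pH x) (sH x) = _
    rw [hmul1]
    rfl
  -- the left side
  have hbne : b ≠ 1 := by
    intro h
    have h1 : sg D K (1 : Q) = 1 := map_one sH
    rw [← h, hsb] at h1
    norm_num at h1
  have hcnt0 : ∀ x, sg D K x ≠ 1 → cK x = 0 := by
    intro x hx
    have h1 : cnt K H (Ideal.span {(f : 𝓞 K)}) artK (D.lift x) n = 0 := by
      unfold cnt
      rw [Nat.card_eq_zero]
      left
      rw [isEmpty_subtype]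
      rintro 𝔟 ⟨-, h2, h3⟩
      apply hx
      rw [sg_one_iff]
      intro z hz
      rw [← h3 z (hKH hz)]
      exact hartK.fix 𝔟 h2 z hz
    simp only [hcKdef, h1, Nat.cast_zero]
  have hsy : sg D K y = 1 := (sg_one_iff D y).2 hy
  have hpy : pH y = y := pr_self hsy
  have hL1 : L (AA D ψp K (Ideal.span {(f : 𝓞 K)}) artK n) = cK y := by
    rw [e1, map_sum]
    simp only [hL]
    rw [Finset.sum_eq_single y]
    · rw [if_pos hpy]
    · intro x _ hxy
      by_cases hx : sg D K x = 1
      · rw [if_neg]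
        intro h
        exact hxy ((pr_self (c := b) hx).symm.trans h)
      · rw [hcnt0 x hx, ite_self]
    · intro h
      exact absurd (Finset.mem_univ y) h
  -- the inner sum
  have hin : ∀ (x : Q) (d : ℕ), ∑ z : Q, (if pH z * pH x = y then cF z d else 0) =
      (cnt F H₁ (Ideal.span {(f : 𝓞 F)}) artF (D.lift (y * x⁻¹)) d : ℤ) := by
    intro x d
    set v := y * x⁻¹ with hv
    have h1 : ∀ z : Q, pH z * pH x = y ↔ z = v ∨ z = b * v := by
      intro z
      have h2 : pH z * pH x = y ↔ pH z = pH v := by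
        rw [hv, map_mul, map_inv, hpy, eq_mul_inv_iff_mul_eq]
      rw [h2]
      exact pr_eq_iff hbb hsb hmul z v
    simp only [h1]
    have hvb : v ≠ b * v := by
      intro h
      exact hbne (mul_eq_right.1 h.symm)
    have h3 : ∑ z : Q, (if z = v ∨ z = b * v then cF z d else 0) = cF v d + cF (b * v) d := by
      rw [← Finset.sum_filter]
      have h4 : Finset.univ.filter (fun z : Q => z = v ∨ z = b * v) = {v, b * v} := by
        ext z
        simp
      rw [h4, Finset.sum_pair hvb]
    rw [h3]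
    have hcH : ¬ Fixes H c := fun h => hcK (h.mono hKH)
    have h5 := cnt_pair (F := F) (𝔪 := Ideal.span {(f : 𝓞 F)}) (art := artF) hH₁H hcH₁ hcH hall
      (D.lift v) d
    have h6 : cnt F H (Ideal.span {(f : 𝓞 F)}) artF (D.lift v * c) d =
        cnt F H (Ideal.span {(f : 𝓞 F)}) artF (D.lift (b * v)) d := by
      refine cnt_congr F H _ artF (fun x hx => ?_) _
      have h7 := (D.q_eq (D.lift v * c) (D.lift (b * v)) ((D.lift_fix _).mul hcF)
        (D.lift_fix _)).1 (by
          rw [D.q_mul _ _ (D.lift_fix _) hcF, D.q_lift, D.q_lift, mul_comm])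
      exact h7 x hx
    rw [h5, h6]
    push_cast
    rfl
  rw [ArithmeticFunction.mul_apply] at hcmp
  have hL2 := congrArg L hcmp
  rw [hL1, map_sum] at hL2
  show cK y = _
  rw [← hL2, Finset.sum_comm]
  refine Finset.sum_congr rfl fun i hi => ?_
  rw [Nat.mem_divisorsAntidiagonal] at hi
  have hi1 : i.1 ≠ 0 := by intro h0; exact hn (by rw [← hi.1, h0, zero_mul])
  have hi2 : i.2 ≠ 0 := by intro h0; exact hn (by rw [← hi.1, h0, mul_zero])
  rw [e2 _ hi1, e3 _ hi2, Finset.sum_mul_sum, Finset.sum_comm, map_sum]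
  refine Finset.sum_congr rfl fun x _ => ?_
  rw [map_sum, ← hin x i.1]
  have h8 : ∀ z : Q, L (MonoidAlgebra.single (pH z) (cF z i.1) *
      MonoidAlgebra.single (pH x) (cF x i.2 * sg D K x)) =
      sg D K x * ((if pH z * pH x = y then cF z i.1 else 0) * cF x i.2) := by
    intro z
    rw [MonoidAlgebra.single_mul_single, hL]
    split_ifs
    · ring
    · ring
  simp only [h8]
  rw [← Finset.mul_sum, ← Finset.sum_mul]

end

end Pool.Agent.J4.H48.BC
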