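import Pool.Agent.J4.H48.RQ.Stmt
import Pool.Agent.K4H33.SQ.Quartic

/-! The statement layer: Stark's conjecture for quadratic extensions, with exactly one complex place,
of totally real fields. -/

set_option autoImplicit false
set_option linter.style.haveILetI false

namespace Pool.Agent.J4.H48.BC.Stmt
open NumberField Module IntermediateField
open Pool.Agent.K4H33.SK (Qbar GQ Fixes IsTorsionOrder)
open Pool.Agent.K4H33.SK.Stmt (Sub Ideals principal IsArtin)
open Pool.Agent.J4.H48.RQ.Stmt (AbelianOver UnramifiedOutside)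

/-- The fields: `F ≠ ℚ` is totally real, `K` is a quadratic extension of `F` with exactly one complex
place, the one given by `ι`, `H` is an extension of `K` which is abelian over `F`, and `H₁` is the
subfield of `H` of the elements which are real under `ι`. -/
structure Fields (ι : Qbar →+* ℂ) (F K H H₁ : Sub) : Prop where
  totally_real : ∀ (w : Qbar →+* ℂ), ∀ x ∈ F, (w x).im = 0
  ne_rat : finrank ℚ F ≠ 1
  F_le : F ≤ K
  quadratic : finrank ℚ K = 2 * finrank ℚ F
  complex : ∃ x ∈ K, (ι x).im ≠ 0
  others : ∀ w : Qbar →+* ℂ, (∃ x ∈ F, w x ≠ ι x) → ∀ x ∈ K, (w x).im = 0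
  K_le : K ≤ H
  abelian : AbelianOver F H
  real_part : ∀ x, x ∈ H₁ ↔ x ∈ H ∧ (ι x).im = 0

/-- The Artin symbols of `F` and of `K` for `H` and ideals prime to `f`, where `f` is divisible by
all prime numbers which ramify in `H`. -/
structure Symbols (F K H : Sub) [NumberField F] [NumberField K] (f : ℕ) (artF : Ideals F → GQ)
    (artK : Ideals K → GQ) : Prop where
  unram : UnramifiedOutside H f
  art_F : IsArtin F H (principal F f) artF
  art_K : IsArtin K H (principal K f) artK

/-- `H₁` is of imaginary quadratic type over the real quadratic field `F`: it is contained in an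
abelian extension of the imaginary quadratic field `k`; and `N` is the normal closure of `H₁ ⊔ k`
over `ℚ`. -/
structure ImQuadType (ι : Qbar →+* ℂ) (F k H₁ N : Sub) : Prop where
  deg_F : finrank ℚ F = 2
  deg_k : finrank ℚ k = 2
  imaginary_k : ∃ x ∈ k, (ι x).im ≠ 0
  abelian_k : AbelianOver k H₁
  closure : IsLeast {N' : Sub | Normal ℚ N' ∧ H₁ ⊔ k ≤ N'} N

/-- The level: `f` is divisible by all prime numbers which ramify in `N`, and the largest subfield of
`N` which is abelian over `ℚ` (the elements on which all automorphisms of `Qbar` commute) is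
contained in the `f`-th cyclotomic field; `art` and `artF` are the Artin symbols of `k` and of `F`
for `N ⊔ ℚ(ζ)` and ideals prime to `f`. -/
structure Level (F k N : Sub) [NumberField F] [NumberField k] (f : ℕ) (ζ : Qbar)
    (art : Ideals k → GQ) (artF : Ideals F → GQ) : Prop where
  two_le : 2 ≤ f
  prim : IsPrimitiveRoot ζ f
  unram : UnramifiedOutside (N ⊔ ℚ⟮ζ⟯) f
  abelian : ∀ x ∈ N, (∀ σ τ : GQ, σ (τ x) = τ (σ x)) → x ∈ ℚ⟮ζ⟯
  art_k : IsArtin k (N ⊔ ℚ⟮ζ⟯) (principal k f) art
  art_F : IsArtin F (N ⊔ ℚ⟮ζ⟯) (principal F f) artF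

end Pool.Agent.J4.H48.BC.Stmt
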