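import Pool.Agent.J4.H48.BC.Main
import Pool.Agent.J4.H48.BC.Stmt
import Pool.Agent.J4.H48.RQ.General

/-! The general statements. -/

set_option autoImplicit false
set_option linter.style.haveILetI false

namespace Pool.Agent.J4.H48.BC.Stmt
open NumberField Module IntermediateField
open Pool.Agent.K4H33.SK (Qbar GQ Fixes IsTorsionOrder StarkCubic)
open Pool.Agent.K4H33.SK.Stmt (Sub Ideals principal IsArtin StarkImQuad PrimesOver)
open Pool.Agent.J4.H48.RQ.Stmt (AbelianOver UnramifiedOutside StarkReal)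
open Pool.Agent.K4H33.SQ (DeligneRibet StarkATR)

/-- The places away from `ι`. -/
lemma exists_other (ι : Qbar →+* ℂ) {F : Sub} (hF : finrank ℚ F ≠ 1) :
    ∃ w : Qbar →+* ℂ, ∃ x ∈ F, w x ≠ ι x := by
  by_contra hcon
  push Not at hcon
  apply hF
  have h1 : F = ⊥ := by
    rw [eq_bot_iff]
    intro x hx
    refine Pool.Agent.K4H33.SK.mem_of_fixed ⊥ fun σ _ => ?_
    apply ι.injective
    exact hcon (ι.comp (σ : Qbar →+* Qbar)) x hx
  rw [h1]
  exact IntermediateField.finrank_bot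

theorem stark_base_change (ι : Qbar →+* ℂ) (F K H H₁ : Sub) [NumberField F] [NumberField K]
    [NumberField H] (hF : Fields ι F K H H₁) (f : ℕ) (artF : Ideals F → GQ) (artK : Ideals K → GQ)
    (hart : Symbols F K H f artF artK) (hDR : DeligneRibet F H (principal F f) artF)
    (hS : StarkReal ι F H₁ (principal F f) artF 2) (W : ℕ) (hW : IsTorsionOrder H W)
    (𝔣 : Ideals K) (h𝔣 : PrimesOver K f 𝔣) : StarkATR ι K H 𝔣 artK W := by
  obtain ⟨w₂, hw₂⟩ := exists_other ι hF.ne_rat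
  have h1 : StarkCubic ι K H (Ideal.span {(f : 𝓞 K)}) artK W :=
    base_change ι F K H H₁ hF.F_le hF.quadratic hF.K_le hF.totally_real hF.complex
      ⟨w₂, hF.others w₂ hw₂⟩ hF.abelian hF.real_part hart.unram artF artK hart.art_F.down
      hart.art_K.down hS hDR W hW
  have h2 := Pool.Agent.K4H33.SK.starkCubic_mul hart.art_K.down le_rfl hF.K_le hW.1 h1 𝔣 h𝔣.1
  refine Pool.Agent.K4H33.SK.starkCubic_modulus (fun 𝔟 => ?_) h2
  rw [IsCoprime.mul_right_iff]
  refine ⟨fun h => h.2, fun h => ⟨?_, h⟩⟩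
  rw [Ideal.isCoprime_iff_sup_eq]
  by_contra hne
  obtain ⟨P, hP, hle⟩ := Ideal.exists_le_maximal _ hne
  have hf' : (f : 𝓞 K) ∈ P := hle ((le_sup_right : _ ≤ 𝔟 ⊔ Ideal.span {(f : 𝓞 K)})
    (Ideal.mem_span_singleton_self _))
  apply hP.ne_top
  rw [Ideal.eq_top_iff_one]
  obtain ⟨i, hi, j, hj, hij⟩ := Ideal.isCoprime_iff_exists.1 h
  rw [← hij]
  exact P.add_mem (hle ((le_sup_left : 𝔟 ≤ 𝔟 ⊔ _) hi)) (h𝔣.2 P hP.isPrime hf' hj)

theorem stark_atr_quartic (ι : Qbar →+* ℂ) (F K k H H₁ N : Sub) [NumberField F] [NumberField K]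
    [NumberField k] [NumberField H] [NumberField N] (hF : Fields ι F K H H₁)
    (hk : ImQuadType ι F k H₁ N) (f : ℕ) (ζ : Qbar) (art : Ideals k → GQ) (artF : Ideals F → GQ)
    (artK : Ideals K → GQ) (hart : Symbols F K H f artF artK) (hf : Level F k N f ζ art artF)
    (W' : ℕ) (hW' : IsTorsionOrder N W') (hS : StarkImQuad ι k N (principal k f) art W')
    (hDR : DeligneRibet F H (principal F f) artF) (W : ℕ) (hW : IsTorsionOrder H W)
    (𝔣 : Ideals K) (h𝔣 : PrimesOver K f 𝔣) : StarkATR ι K H 𝔣 artK W := by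
  have hFH : F ≤ H := hF.F_le.trans hF.K_le
  have hH₁H : H₁ ≤ H := fun x hx => ((hF.real_part x).1 hx).1
  have hfields : Pool.Agent.J4.H48.RQ.Stmt.Fields ι F k H₁ N :=
    { deg_K := hk.deg_F
      deg_k := hk.deg_k
      imaginary_k := hk.imaginary_k
      K_le := fun x hx => (hF.real_part x).2 ⟨hFH hx, hF.totally_real ι x hx⟩
      real_H := fun x hx => ((hF.real_part x).1 hx).2
      abelian_K := fun σ τ hσ hτ x hx => hF.abelian σ τ hσ hτ x (hH₁H hx)
      abelian_k := hk.abelian_k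
      closure := hk.closure }
  have h1 := Pool.Agent.J4.H48.RQ.Stmt.stark_real_general ι F k H₁ N hfields f ζ
    ⟨hf.two_le, hf.prim, hf.unram, hf.abelian⟩ art artF ⟨hf.art_k, hf.art_F⟩ W' hW' hS
    (principal F f) ⟨by
      rw [Ne, Ideal.span_singleton_eq_bot, Nat.cast_eq_zero]
      have := hf.two_le
      omega, fun P _ hP => by
      rw [Ideal.span_singleton_le_iff_mem]
      exact hP⟩
  exact stark_base_change ι F K H H₁ hF f artF artK hart hDR h1.2 W hW 𝔣 h𝔣

end Pool.Agent.J4.H48.BC.Stmt
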