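import Pool.Agent.J4.H48.RQ.Quad

/-! Primes in a relative quadratic extension. -/

set_option autoImplicit false
set_option linter.style.haveILetI false
set_option linter.unusedSectionVars false

namespace Pool.Agent.J4.H48.BC
open NumberField Module IntermediateField Pool.Agent.K4H33.SK Pool.Agent.J4.H48.RQ

section abstract

variable {F K : Type*} [Field F] [Field K] [NumberField F] [NumberField K] [Algebra F K]

lemma absNorm_map_two (h : finrank F K = 2) (𝔭 : Ideal (𝓞 F)) :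
    Ideal.absNorm (𝔭.map (algebraMap (𝓞 F) (𝓞 K))) = Ideal.absNorm 𝔭 ^ 2 := by
  rw [Ideal.absNorm_algebraMap, ← h]
  congr 1
  exact (IsFractionRing.finrank_eq (𝓞 F) F (𝓞 K) K).symm

lemma one_lt_absNorm {P : Ideal (𝓞 F)} (hP : P.IsPrime) (hP0 : P ≠ ⊥) :
    1 < Ideal.absNorm P := by
  have h1 : Ideal.absNorm P ≠ 0 := fun h => hP0 (Ideal.absNorm_eq_zero_iff.1 h)
  have h2 : Ideal.absNorm P ≠ 1 := fun h => hP.ne_top (Ideal.absNorm_eq_one_iff.1 h)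
  omega

lemma absNorm_above {𝔭 : Ideal (𝓞 F)} {P : Ideal (𝓞 K)} (hP : P.IsPrime)
    (hu : P.under (𝓞 F) = 𝔭) : ∃ j, 0 < j ∧ Ideal.absNorm P = Ideal.absNorm 𝔭 ^ j := by
  haveI := hP
  haveI : P.LiesOver 𝔭 := ⟨hu.symm⟩
  refine ⟨P.inertiaDeg (𝓞 F), Ideal.inertiaDeg_pos P (𝓞 F), ?_⟩
  exact (Ideal.absNorm_pow_inertiaDeg (R := 𝓞 F) 𝔭 P).symm

/-- The factorization of a prime. -/
theorem prime_cases (h : finrank F K = 2) {𝔭 : Ideal (𝓞 F)} (h𝔭 : 𝔭.IsPrime) (h𝔭0 : 𝔭 ≠ ⊥)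
    {P : Ideal (𝓞 K)} (hP : P.IsPrime) (hu : P.under (𝓞 F) = 𝔭) :
    (Ideal.absNorm P = Ideal.absNorm 𝔭 ^ 2 ∧ 𝔭.map (algebraMap (𝓞 F) (𝓞 K)) = P) ∨
    (Ideal.absNorm P = Ideal.absNorm 𝔭 ∧ ∃ P' : Ideal (𝓞 K), P'.IsPrime ∧
      P'.under (𝓞 F) = 𝔭 ∧ Ideal.absNorm P' = Ideal.absNorm 𝔭 ∧
      𝔭.map (algebraMap (𝓞 F) (𝓞 K)) = P * P') := by
  have hq := one_lt_absNorm h𝔭 h𝔭0
  set q := Ideal.absNorm 𝔭 with hqdef
  have hN := absNorm_map_two h 𝔭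
  have hle : 𝔭.map (algebraMap (𝓞 F) (𝓞 K)) ≤ P := by
    rw [Ideal.map_le_iff_le_comap]
    exact le_of_eq hu.symm
  obtain ⟨J, hJ⟩ := Ideal.dvd_iff_le.2 hle
  have hNJ : q ^ 2 = Ideal.absNorm P * Ideal.absNorm J := by rw [← hN, hJ, map_mul]
  obtain ⟨j, hj, hPj⟩ := absNorm_above hP hu
  rw [← hqdef] at hPj
  have hj2 : j ≤ 2 := by
    have h1 : q ^ j ∣ q ^ 2 := by rw [hNJ, hPj]; exact dvd_mul_right _ _
    exact (Nat.pow_dvd_pow_iff_le_right hq).1 h1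
  have hjc : j = 2 ∨ j = 1 := by omega
  rcases hjc with rfl | rfl
  · left
    refine ⟨hPj, ?_⟩
    rw [hPj] at hNJ
    have h1 : Ideal.absNorm J = 1 := by
      have h2 : 0 < q ^ 2 := by positivity
      exact (Nat.eq_of_mul_eq_mul_left h2 (by rw [mul_one]; exact hNJ)).symm
    rw [Ideal.absNorm_eq_one_iff] at h1
    rw [hJ, h1, Ideal.mul_top]
  · right
    rw [pow_one] at hPj
    refine ⟨hPj, ?_⟩
    have h1 : Ideal.absNorm J = q := by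
      rw [hPj, pow_two] at hNJ
      exact (Nat.eq_of_mul_eq_mul_left (by omega) hNJ).symm
    have hJt : J ≠ ⊤ := by
      rintro rfl
      rw [Ideal.absNorm_top] at h1
      omega
    obtain ⟨P', hP', hJP⟩ := Ideal.exists_le_maximal J hJt
    have hP'p : P'.IsPrime := hP'.isPrime
    have hu' : P'.under (𝓞 F) = 𝔭 := by
      have h2 : 𝔭 ≤ P'.under (𝓞 F) := by
        have h3 : 𝔭.map (algebraMap (𝓞 F) (𝓞 K)) ≤ P' := by
          rw [hJ]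
          exact Ideal.mul_le_right.trans hJP
        rw [Ideal.map_le_iff_le_comap] at h3
        exact h3
      haveI := hP'p
      have h4 : (P'.under (𝓞 F)).IsPrime := inferInstance
      exact ((h𝔭.isMaximal h𝔭0).eq_of_le h4.ne_top h2).symm
    obtain ⟨j', hj', hPj'⟩ := absNorm_above hP'p hu'
    rw [← hqdef] at hPj'
    obtain ⟨J', hJ'⟩ := Ideal.dvd_iff_le.2 hJP
    have hNJ' : q = Ideal.absNorm P' * Ideal.absNorm J' := by rw [← h1, hJ', map_mul]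
    have hj1 : j' ≤ 1 := by
      have h2 : q ^ j' ∣ q ^ 1 := by rw [pow_one, ← hPj']; exact Dvd.intro _ hNJ'.symm
      exact (Nat.pow_dvd_pow_iff_le_right hq).1 h2
    have hj1' : j' = 1 := by omega
    rw [hj1', pow_one] at hPj'
    have h3 : Ideal.absNorm J' = 1 := by
      rw [hPj'] at hNJ'
      exact (Nat.eq_of_mul_eq_mul_left (by omega : 0 < q) (by rw [mul_one]; exact hNJ')).symm
    rw [Ideal.absNorm_eq_one_iff] at h3
    have h4 : J = P' := by rw [hJ', h3, Ideal.mul_top]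
    exact ⟨P', hP'p, hu', hPj', by rw [hJ, h4]⟩

end abstract

section

variable {F K M : IntermediateField ℚ Qbar} [NumberField F] [NumberField K] [NumberField M]

/-- The inclusion of the rings of integers. -/
noncomputable abbrev inc (hFK : F ≤ K) : 𝓞 F →+* 𝓞 K :=
  RingOfIntegers.mapRingHom (IntermediateField.inclusion hFK)

omit [NumberField F] [NumberField K] in
lemma alg_inc (hFK : F ≤ K) (x : 𝓞 F) :
    algebraMap (𝓞 K) (𝓞 Qbar) (inc hFK x) = algebraMap (𝓞 F) (𝓞 Qbar) x :=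
  RingOfIntegers.ext rfl

omit [NumberField F] [NumberField K] in
lemma comap_inc (hFK : F ≤ K) (𝔓 : Ideal (𝓞 Qbar)) :
    (𝔓.under (𝓞 K)).comap (inc hFK) = 𝔓.under (𝓞 F) := by
  ext x
  rw [Ideal.mem_comap, mem_under, mem_under, alg_inc]

omit [NumberField F] [NumberField K] in
/-- A prime above a given prime of `K`. -/
lemma exists_over (P : Ideal (𝓞 K)) (hP : P.IsPrime) :
    ∃ 𝔓 : Ideal (𝓞 Qbar), 𝔓.IsPrime ∧ 𝔓.under (𝓞 K) = P := by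
  haveI := hP
  haveI : Algebra.IsAlgebraic K Qbar := Algebra.IsAlgebraic.tower_top (K := ℚ) K
  haveI : Algebra.IsIntegral (𝓞 K) (𝓞 Qbar) := inferInstance
  obtain ⟨⟨𝔓, h𝔓, hl⟩⟩ := Ideal.nonempty_primesOver (S := 𝓞 Qbar) P
  exact ⟨𝔓, h𝔓, (hl.over).symm⟩

/-- `Ideals` above a prime number. -/
lemma exists_p {𝔭 : Ideal (𝓞 F)} (h𝔭 : 𝔭.IsPrime) (h𝔭0 : 𝔭 ≠ ⊥) {f : ℕ}
    (hc : IsCoprime 𝔭 (Ideal.span {(f : 𝓞 F)})) :
    ∃ p : ℕ, p.Prime ∧ ¬ p ∣ f ∧ (p : 𝓞 F) ∈ 𝔭 := by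
  haveI := h𝔭.isMaximal h𝔭0
  obtain ⟨p, n, hn, hp𝔭, hp, hN⟩ := Ideal.exists_prime_and_absNorm_eq_pow 𝔭
  refine ⟨p, hp, fun hpf => ?_, hp𝔭⟩
  rw [coprime_norm, hN] at hc
  have h1 : p ∣ p ^ n := dvd_pow_self p hn.ne'
  have h2 := Nat.dvd_gcd h1 hpf
  rw [hc.gcd_eq_one] at h2
  exact hp.one_lt.ne' (Nat.dvd_one.1 h2)

/-- The inertia group of an extension which is unramified at `p`. -/
theorem inertia_trivial_rel {F L : Type*} [Field F] [Field L] [NumberField F] [NumberField L]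
    [Algebra F L] [IsGalois F L] {p : ℕ} (hp : p.Prime) {Q : Ideal (𝓞 L)} (hQ : Q.IsPrime)
    (hpQ : (p : 𝓞 L) ∈ Q) (hpQ2 : (p : 𝓞 L) ∉ Q ^ 2) (s : L ≃ₐ[F] L)
    (hs : ∀ x : 𝓞 L, s • x - x ∈ Q) : s = 1 := by
  haveI := hQ
  haveI : IsGaloisGroup (L ≃ₐ[F] L) (𝓞 F) (𝓞 L) :=
    IsGaloisGroup.of_isFractionRing (L ≃ₐ[F] L) (𝓞 F) (𝓞 L) F L
  set 𝔭 : Ideal (𝓞 F) := Q.under (𝓞 F) with h𝔭
  haveI : Q.LiesOver 𝔭 := ⟨rfl⟩
  haveI : 𝔭.IsPrime := inferInstance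
  have hp𝔭 : (p : 𝓞 F) ∈ 𝔭 := by
    rw [h𝔭, Ideal.under_def, Ideal.mem_comap, map_natCast]
    exact hpQ
  have hp0 : 𝔭 ≠ ⊥ := by
    intro h
    rw [h, Ideal.mem_bot, Nat.cast_eq_zero] at hp𝔭
    exact hp.ne_zero hp𝔭
  haveI : 𝔭.IsMaximal := Ideal.IsPrime.isMaximal inferInstance hp0
  have h1 : Ideal.ramificationIdx' 𝔭 Q = 1 := by
    by_contra h
    rw [← Ne, Ideal.ramificationIdx'_ne_one_iff] at h
    · apply hpQ2
      apply h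
      rw [← map_natCast (algebraMap (𝓞 F) (𝓞 L))]
      exact Ideal.mem_map_of_mem _ hp𝔭
    · rw [Ideal.map_le_iff_le_comap]
  rw [Ideal.ramificationIdx'_eq_ramificationIdx _ _ hp0] at h1
  have h2 := Ideal.card_inertia_eq_ramificationIdxIn (G := L ≃ₐ[F] L) 𝔭 Q
  rw [Ideal.ramificationIdxIn_eq_ramificationIdx 𝔭 Q (L ≃ₐ[F] L), h1] at h2
  have h3 : s ∈ Q.inertia (L ≃ₐ[F] L) := hs
  have h4 : Subsingleton (Q.inertia (L ≃ₐ[F] L)) := (Nat.card_eq_one_iff_unique.1 h2).1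
  have h5 := h4.elim ⟨s, h3⟩ 1
  exact congrArg Subtype.val h5

section rel

variable {F H : IntermediateField ℚ Qbar} (hFH : F ≤ H)
  (hst : ∀ σ : GQ, Fixes F σ → ∀ x ∈ H, σ x ∈ H)

include hst in
/-- The restriction of an automorphism. -/
theorem exists_res {σ : GQ} (hσ : Fixes F σ) :
    letI : Algebra F H := (IntermediateField.inclusion hFH).toAlgebra
    ∃ s : H ≃ₐ[F] H, ∀ x : H, ((s x : H) : Qbar) = σ x := by
  letI : Algebra F H := (IntermediateField.inclusion hFH).toAlgebra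
  refine ⟨{ toFun := fun x => ⟨σ x, hst σ hσ x x.2⟩
            invFun := fun x => ⟨σ⁻¹ x, hst σ⁻¹ hσ.inv x x.2⟩
            left_inv := fun x => Subtype.ext (by
              show σ⁻¹ (σ (x : Qbar)) = x
              rw [← AlgEquiv.mul_apply, inv_mul_cancel, AlgEquiv.one_apply])
            right_inv := fun x => Subtype.ext (by
              show σ (σ⁻¹ (x : Qbar)) = x
              rw [← AlgEquiv.mul_apply, mul_inv_cancel, AlgEquiv.one_apply])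
            map_mul' := fun x y => Subtype.ext (map_mul σ (x : Qbar) y)
            map_add' := fun x y => Subtype.ext (map_add σ (x : Qbar) y)
            commutes' := fun x => Subtype.ext (hσ x x.2) }, fun x => rfl⟩

include hst in
/-- The extension is Galois. -/
theorem isGalois_rel [NumberField F] [NumberField H] :
    letI : Algebra F H := (IntermediateField.inclusion hFH).toAlgebra
    IsGalois F H := by
  letI : Algebra F H := (IntermediateField.inclusion hFH).toAlgebra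
  haveI tow : IsScalarTower ℚ F H := IsScalarTower.of_algebraMap_eq fun x => rfl
  haveI : FiniteDimensional F H := FiniteDimensional.right ℚ F H
  refine IsGalois.of_fixedField_eq_bot F H ?_
  rw [eq_bot_iff]
  intro x hx
  rw [IntermediateField.mem_fixedField_iff] at hx
  have h1 : (x : Qbar) ∈ F := by
    apply mem_of_fixed
    intro σ hσ
    obtain ⟨s, hs⟩ := exists_res hFH hst hσ
    rw [← hs x, hx s (Subgroup.mem_top s)]
  rw [IntermediateField.mem_bot]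
  exact ⟨⟨x, h1⟩, Subtype.ext rfl⟩

include hFH hst in
/-- Frobenius automorphisms are unique. -/
theorem fr_unique_rel [NumberField F] [NumberField H] {f p : ℕ} (hU : Unram H f) (hp : p.Prime)
    (hpf : ¬ p ∣ f) {𝔓 : Ideal (𝓞 Qbar)} (h𝔓 : 𝔓.IsPrime) (h𝔓p : (p : 𝓞 Qbar) ∈ 𝔓) {q : ℕ}
    {h h' : GQ} (hF : Fixes F h) (hF' : Fixes F h') (hh : Fr H 𝔓 q h) (hh' : Fr H 𝔓 q h') :
    ∀ x ∈ H, h x = h' x := by
  haveI := h𝔓
  letI alg : Algebra F H := (IntermediateField.inclusion hFH).toAlgebra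
  haveI : IsGalois F H := isGalois_rel hFH hst
  obtain ⟨s, hs⟩ := exists_res hFH hst (hF.mul hF'.inv)
  have h1 : s = 1 := by
    refine inertia_trivial_rel hp (Q := 𝔓.under (𝓞 H)) inferInstance (nat_mem_under h𝔓p)
      (hU p hp hpf _ inferInstance (nat_mem_under h𝔓p)) s fun x => ?_
    rw [mem_under, map_sub]
    set X : 𝓞 Qbar := algebraMap (𝓞 H) (𝓞 Qbar) x with hX
    have hXM : (X : Qbar) ∈ H := (x : H).2
    set w : 𝓞 Qbar := ap h'⁻¹ X with hw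
    have hwM : (w : Qbar) ∈ H := by
      rw [hw, coe_ap]
      exact hst _ hF'.inv _ hXM
    have e1 := hh w (ap h w) hwM rfl
    have e2 := hh' w X hwM (by
      rw [hw, coe_ap, ← AlgEquiv.mul_apply, mul_inv_cancel, AlgEquiv.one_apply])
    have e3 : algebraMap (𝓞 H) (𝓞 Qbar) (s • x) = ap h w := by
      apply RingOfIntegers.ext
      have h4 : ((algebraMap (𝓞 H) (𝓞 Qbar) (s • x) : 𝓞 Qbar) : Qbar) =
        ((s (x : H) : H) : Qbar) := rfl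
      rw [h4, hs]
      rfl
    rw [e3]
    have e4 := 𝔓.sub_mem e1 e2
    rwa [sub_sub_sub_cancel_right] at e4
  intro x hx
  have h2 := hs ⟨h' x, hst _ hF' x hx⟩
  rw [h1] at h2
  have h3 : (h * h'⁻¹) (h' x) = h' x := h2.symm
  rw [AlgEquiv.mul_apply, ← AlgEquiv.mul_apply h'⁻¹, inv_mul_cancel, AlgEquiv.one_apply] at h3
  exact h3

include hst in
lemma fr_sq_rel {𝔓 : Ideal (𝓞 Qbar)} {q : ℕ} {g : GQ} (hgF : Fixes F g) (hg : Fr H 𝔓 q g) :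
    Fr H 𝔓 (q ^ 2) (g * g) := by
  intro x y hx hy
  have h1 := hg x (ap g x) hx rfl
  have h2 := hg (ap g x) y (by rw [coe_ap]; exact hst _ hgF _ hx) (by rw [hy]; rfl)
  have h3 : ap g x ^ q - (x ^ q) ^ q ∈ 𝔓 := by
    have h4 := sub_dvd_pow_sub_pow (ap g x) (x ^ q) q
    exact Ideal.mem_of_dvd 𝔓 h4 h1
  have h5 : y - x ^ q ^ 2 = (y - ap g x ^ q) + (ap g x ^ q - (x ^ q) ^ q) := by
    rw [pow_two, pow_mul]
    ring
  rw [h5]
  exact 𝔓.add_mem h2 h3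

end rel

/-- **The primes of `K` above a prime of `F` and their Artin symbols.** -/
theorem rel_local {f : ℕ} {artF : Ideal (𝓞 F) → GQ} {artK : Ideal (𝓞 K) → GQ} (hFK : F ≤ K)
    (hdeg : finrank ℚ K = 2 * finrank ℚ F) (hKM : K ≤ M)
    (hst : ∀ σ : GQ, Fixes F σ → ∀ x ∈ M, σ x ∈ M) (hU : Unram M f)
    (hartF : IsArtin F M (Ideal.span {(f : 𝓞 F)}) artF)
    (hartK : IsArtin K M (Ideal.span {(f : 𝓞 K)}) artK) {𝔭 : Ideal (𝓞 F)} (h𝔭 : 𝔭.IsPrime)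
    (h𝔭0 : 𝔭 ≠ ⊥) (hc : IsCoprime 𝔭 (Ideal.span {(f : 𝓞 F)})) :
    (∃ P : Ideal (𝓞 K), P.IsPrime ∧ P ≠ ⊥ ∧ Ideal.absNorm P = Ideal.absNorm 𝔭 ^ 2 ∧
      𝔭.map (inc hFK) = P ∧ (∀ x ∈ M, artK P x = artF 𝔭 (artF 𝔭 x)) ∧
      ¬ Fixes K (artF 𝔭)) ∨
    (∃ P P' : Ideal (𝓞 K), P.IsPrime ∧ P ≠ ⊥ ∧ P'.IsPrime ∧ P' ≠ ⊥ ∧ P ≠ P' ∧
      Ideal.absNorm P = Ideal.absNorm 𝔭 ∧ Ideal.absNorm P' = Ideal.absNorm 𝔭 ∧
      𝔭.map (inc hFK) = P * P' ∧ (∀ x ∈ M, artK P x = artF 𝔭 x) ∧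
      (∀ x ∈ M, artK P' x = artF 𝔭 x) ∧ Fixes K (artF 𝔭)) := by
  classical
  letI alg : Algebra F K := (IntermediateField.inclusion hFK).toAlgebra
  haveI tow : IsScalarTower ℚ F K := IsScalarTower.of_algebraMap_eq fun x => rfl
  haveI : FiniteDimensional F K := FiniteDimensional.right ℚ F K
  have hrk : finrank F K = 2 := by
    have h1 := finrank_mul_finrank ℚ F K
    rw [hdeg, mul_comm] at h1
    have h2 : 0 < finrank ℚ F := finrank_pos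
    exact Nat.eq_of_mul_eq_mul_right h2 h1
  have hinc : algebraMap (𝓞 F) (𝓞 K) = inc hFK := rfl
  obtain ⟨p, hp, hpf, hp𝔭⟩ := exists_p h𝔭 h𝔭0 hc
  have hq := one_lt_absNorm h𝔭 h𝔭0
  obtain ⟨𝔓, h𝔓, h𝔓u⟩ := exists_over 𝔭 h𝔭
  haveI := h𝔓
  set P : Ideal (𝓞 K) := 𝔓.under (𝓞 K) with hPdef
  have hPp : P.IsPrime := inferInstance
  have hu : P.under (𝓞 F) = 𝔭 := by
    rw [← h𝔓u, ← comap_inc hFK 𝔓]
    rfl
  -- general facts on a prime above `𝔭`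
  have gen : ∀ 𝔔 : Ideal (𝓞 Qbar), 𝔔.IsPrime → 𝔔.under (𝓞 F) = 𝔭 →
      (p : 𝓞 Qbar) ∈ 𝔔 ∧ Fr M 𝔔 (Ideal.absNorm 𝔭) (artF 𝔭) ∧
      Fr M 𝔔 (Ideal.absNorm (𝔔.under (𝓞 K))) (artK (𝔔.under (𝓞 K))) ∧
      Fixes K (artK (𝔔.under (𝓞 K))) ∧ 𝔔.under (𝓞 K) ≠ ⊥ := by
    intro 𝔔 h𝔔 h𝔔u
    haveI := h𝔔
    have h1 : (p : 𝓞 Qbar) ∈ 𝔔 := by
      have h2 : (p : 𝓞 F) ∈ 𝔔.under (𝓞 F) := by rw [h𝔔u]; exact hp𝔭
      rw [mem_under, map_natCast] at h2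
      exact h2
    refine ⟨h1, fun x y hx hy => ?_, fr_art hartK hp hpf h𝔔 h1, art_fix hartK hp hpf h𝔔 h1,
      under_prime_ne_bot hp (nat_mem_under h1)⟩
    exact hartF.frob 𝔭 h𝔭 hc 𝔔 h𝔔 ⟨h𝔔u.symm⟩ x y hx hy
  have agree : ∀ 𝔔 : Ideal (𝓞 Qbar), 𝔔.IsPrime → 𝔔.under (𝓞 F) = 𝔭 →
      Ideal.absNorm (𝔔.under (𝓞 K)) = Ideal.absNorm 𝔭 →
      ∀ x ∈ M, artK (𝔔.under (𝓞 K)) x = artF 𝔭 x := by
    intro 𝔔 h𝔔 h𝔔u h𝔔N
    obtain ⟨h1, h2, h3, -⟩ := gen 𝔔 h𝔔 h𝔔u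
    rw [h𝔔N] at h3
    exact fr_unique_rel (hFK.trans hKM) hst hU hp hpf h𝔔 h1
      (Fixes.mono hFK (art_fix hartK hp hpf h𝔔 h1)) (hartF.fix 𝔭 hc) h3 h2
  obtain ⟨hp𝔓, hF1, hF2, hfixP, hP0⟩ := gen 𝔓 h𝔓 h𝔓u
  rcases prime_cases hrk h𝔭 h𝔭0 hPp hu with ⟨hN, hmap⟩ | ⟨hN, P', hP', hu', hN', hmap⟩
  · left
    refine ⟨P, hPp, hP0, hN, by rw [← hinc]; exact hmap, ?_, ?_⟩
    · have hfF : Fixes F (artF 𝔭) := hartF.fix 𝔭 hc
      have h1 : Fr M 𝔓 (Ideal.absNorm 𝔭 ^ 2) (artF 𝔭 * artF 𝔭) := fr_sq_rel hst hfF hF1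
      rw [← hPdef, hN] at hF2
      exact fr_unique_rel (hFK.trans hKM) hst hU hp hpf h𝔓 hp𝔓 (Fixes.mono hFK hfixP)
        (hfF.mul hfF) hF2 h1
    · intro hfix
      haveI := hPp
      haveI : Finite (𝓞 K ⧸ P) := Ideal.finiteQuotientOfFreeOfNeBot P hP0
      have h2 : Nat.card (𝓞 K ⧸ P) = Ideal.absNorm 𝔭 ^ 2 := hN
      have h3 : ∀ x : 𝓞 K ⧸ P, x ^ Ideal.absNorm 𝔭 = x := by
        intro x
        obtain ⟨z, rfl⟩ := Ideal.Quotient.mk_surjective x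
        rw [← map_pow]
        refine (Ideal.Quotient.eq.2 ?_).symm
        rw [hPdef, mem_under, map_sub, map_pow]
        refine hF1 _ _ (hKM (z : K).2) ?_
        exact (hfix _ (z : K).2).symm
      have h4 := card_le_of_pow hq h3
      rw [h2] at h4
      nlinarith
  · right
    have hag := agree 𝔓 h𝔓 h𝔓u hN
    have hfix : Fixes K (artF 𝔭) := fun x hx => by
      rw [← hag x (hKM hx)]
      exact hfixP x hx
    obtain ⟨𝔓', h𝔓', h𝔓'u⟩ := exists_over P' hP'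
    have hu2 : 𝔓'.under (𝓞 F) = 𝔭 := by
      rw [← comap_inc hFK 𝔓', h𝔓'u]
      exact hu'
    obtain ⟨hp𝔓', -, -, -, hP0'⟩ := gen 𝔓' h𝔓' hu2
    rw [h𝔓'u] at hP0'
    have hag' := agree 𝔓' h𝔓' hu2 (by rw [h𝔓'u]; exact hN')
    rw [h𝔓'u] at hag'
    refine ⟨P, P', hPp, hP0, hP', hP0', ?_, hN, hN', by rw [← hinc]; exact hmap, hag, hag', hfix⟩
    -- the primes are different
    rintro h4
    rw [← h4, ← pow_two] at hmap
    have h5 : (p : 𝓞 K) ∈ P ^ 2 := by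
      rw [← hmap, ← map_natCast (algebraMap (𝓞 F) (𝓞 K))]
      exact Ideal.mem_map_of_mem _ hp𝔭
    have h6 : (p : 𝓞 M) ∈ (𝔓.under (𝓞 M)) ^ 2 := by
      let i : 𝓞 K →+* 𝓞 M := inc hKM
      have h7 : Ideal.map i P ≤ 𝔓.under (𝓞 M) := by
        rw [Ideal.map_le_iff_le_comap, comap_inc hKM 𝔓]
      have h8 : i (p : 𝓞 K) ∈ Ideal.map i (P ^ 2) := Ideal.mem_map_of_mem i h5
      rw [map_natCast, Ideal.map_pow] at h8
      exact Ideal.pow_right_mono h7 2 h8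
    exact hU p hp hpf (𝔓.under (𝓞 M)) inferInstance (nat_mem_under hp𝔓) h6

end

end Pool.Agent.J4.H48.BC
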