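import Pool.Agent.J4.H48.RQ.Fin
import Pool.Agent.J4.H48.BC.Loc

/-! The Galois group of an abelian extension, and arithmetic functions with values in a ring. -/

set_option autoImplicit false
set_option linter.style.haveILetI false
set_option linter.unusedSectionVars false

namespace Pool.Agent.J4.H48.BC
open NumberField Module IntermediateField Pool.Agent.K4H33.SK Pool.Agent.J4.H48.RQ

/-- The Galois group of the abelian extension `H` of `F`, with lifts to `Qbar`. -/
structure GD (F H : IntermediateField ℚ Qbar) (Q : Type) [CommGroup Q] where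
  /-- the class -/
  q : GQ → Q
  /-- the lift -/
  lift : Q → GQ
  lift_fix : ∀ x, Fixes F (lift x)
  q_lift : ∀ x, q (lift x) = x
  q_mul : ∀ σ τ, Fixes F σ → Fixes F τ → q (σ * τ) = q σ * q τ
  q_eq : ∀ σ τ, Fixes F σ → Fixes F τ → (q σ = q τ ↔ ∀ x ∈ H, σ x = τ x)

theorem exists_gd {F H : IntermediateField ℚ Qbar} [NumberField H]
    (hab : ∀ σ τ : GQ, Fixes F σ → Fixes F τ → ∀ x ∈ H, σ (τ x) = τ (σ x)) :
    ∃ (Q : Type) (_ : CommGroup Q) (_ : Fintype Q), Nonempty (GD F H Q) := by
  classical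
  let N : Subgroup F.fixingSubgroup := H.fixingSubgroup.subgroupOf F.fixingSubgroup
  have hN : ∀ s : F.fixingSubgroup, s ∈ N ↔ Fixes H (s : GQ) := fun s => by
    rw [Subgroup.mem_subgroupOf, fixes_iff]
  haveI hNn : N.Normal := by
    constructor
    intro n hn g
    rw [hN] at hn ⊢
    intro x hx
    have h1 := hab (g : GQ)⁻¹ (n : GQ) (fixes_iff.2 g.2).inv (fixes_iff.2 n.2) x hx
    rw [hn x hx] at h1
    show ((g : GQ) * (n : GQ) * (g : GQ)⁻¹) x = x
    rw [AlgEquiv.mul_apply, AlgEquiv.mul_apply, ← h1, ← AlgEquiv.mul_apply, mul_inv_cancel,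
      AlgEquiv.one_apply]
  letI cg : CommGroup (F.fixingSubgroup ⧸ N) :=
    { (inferInstance : Group (F.fixingSubgroup ⧸ N)) with
      mul_comm := by
        intro a b
        obtain ⟨s, rfl⟩ := QuotientGroup.mk_surjective a
        obtain ⟨t, rfl⟩ := QuotientGroup.mk_surjective b
        show ((s * t : F.fixingSubgroup) : F.fixingSubgroup ⧸ N) = ((t * s : F.fixingSubgroup) : _)
        rw [QuotientGroup.eq, hN]
        intro x hx
        have h1 : ((((s * t)⁻¹ * (t * s) : F.fixingSubgroup)) : GQ) x =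
          ((s : GQ) * t)⁻¹ (((t : GQ) * s) x) := rfl
        rw [h1]
        have h2 : ((t : GQ) * s) x = ((s : GQ) * t) x :=
          hab t s (fixes_iff.2 t.2) (fixes_iff.2 s.2) x hx
        rw [h2, ← AlgEquiv.mul_apply, inv_mul_cancel, AlgEquiv.one_apply] }
  have hmk : ∀ s t : F.fixingSubgroup, ((s : F.fixingSubgroup ⧸ N) = t ↔
      ∀ x ∈ H, (s : GQ) x = (t : GQ) x) := by
    intro s t
    rw [QuotientGroup.eq, hN]
    constructor
    · intro h x hx
      have h1 := h x hx
      have h2 : (((s⁻¹ * t : F.fixingSubgroup)) : GQ) x = (s : GQ)⁻¹ ((t : GQ) x) := rfl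
      rw [h2, AlgEquiv.aut_inv, AlgEquiv.symm_apply_eq] at h1
      exact h1.symm
    · intro h x hx
      have h2 : (((s⁻¹ * t : F.fixingSubgroup)) : GQ) x = (s : GQ)⁻¹ ((t : GQ) x) := rfl
      rw [h2, ← h x hx, ← AlgEquiv.mul_apply, inv_mul_cancel, AlgEquiv.one_apply]
  haveI hfin : Finite (F.fixingSubgroup ⧸ N) := by
    obtain ⟨S, _, g, hg, hall⟩ := exists_reps H F
    refine Finite.of_surjective
      (fun s : S => ((⟨g s, fixes_iff.1 (hg s)⟩ : F.fixingSubgroup) : F.fixingSubgroup ⧸ N)) ?_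
    intro a
    obtain ⟨t, rfl⟩ := QuotientGroup.mk_surjective a
    obtain ⟨s, hs, -⟩ := hall (t : GQ) (fixes_iff.2 t.2)
    refine ⟨s, ?_⟩
    rw [hmk]
    exact fun x hx => (hs x hx).symm
  refine ⟨F.fixingSubgroup ⧸ N, cg, Fintype.ofFinite _, ⟨⟨fun σ =>
    if h : Fixes F σ then ((⟨σ, fixes_iff.1 h⟩ : F.fixingSubgroup) : F.fixingSubgroup ⧸ N) else 1,
    fun a => (Quotient.out a : F.fixingSubgroup), fun a => fixes_iff.2 (Quotient.out a).2, ?_, ?_, ?_⟩⟩⟩
  · intro a
    rw [dif_pos (fixes_iff.2 (Quotient.out a).2)]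
    exact QuotientGroup.out_eq' a
  · intro σ τ hσ hτ
    rw [dif_pos hσ, dif_pos hτ, dif_pos (hσ.mul hτ)]
    rfl
  · intro σ τ hσ hτ
    rw [dif_pos hσ, dif_pos hτ]
    exact hmk _ _

/-! ### Arithmetic functions -/

section ring

variable {R : Type} [CommRing R]

/-- The function with value `r` at `N`. -/
def dl (N : ℕ) (r : R) : ArithmeticFunction R :=
  ⟨fun n => if n = 0 then 0 else if n = N then r else 0, if_pos rfl⟩

lemma dl_apply {N : ℕ} {r : R} {n : ℕ} (hn : n ≠ 0) : dl N r n = if n = N then r else 0 := by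
  show (if n = 0 then 0 else if n = N then r else 0) = _
  rw [if_neg hn]

lemma dl_neg (N : ℕ) (r : R) : dl N (-r) = -dl N r := by
  ext n
  show (if n = 0 then 0 else if n = N then -r else 0) = -(if n = 0 then 0 else if n = N then r else 0)
  split_ifs <;> simp

lemma dl_mul_apply {N : ℕ} (hN : N ≠ 0) (r : R) (A : ArithmeticFunction R) {n : ℕ} (hn : n ≠ 0) :
    (dl N r * A) n = if N ∣ n then r * A (n / N) else 0 := by
  classical
  rw [ArithmeticFunction.mul_apply]
  split_ifs with h
  · obtain ⟨m, rfl⟩ := h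
    have hm : m ≠ 0 := by rintro rfl; exact hn (by simp)
    rw [Nat.mul_div_cancel_left m (Nat.pos_of_ne_zero hN), Finset.sum_eq_single (N, m)]
    · rw [dl_apply hN, if_pos rfl]
    · rintro ⟨a, b⟩ hab hne
      rw [Nat.mem_divisorsAntidiagonal] at hab
      have ha : a ≠ 0 := by rintro rfl; exact hn (by rw [← hab.1]; simp)
      rw [dl_apply ha, if_neg, zero_mul]
      rintro rfl
      have hbm : b = m := Nat.eq_of_mul_eq_mul_left (Nat.pos_of_ne_zero hN) hab.1
      exact hne (by rw [hbm])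
    · intro h
      exact absurd (Nat.mem_divisorsAntidiagonal.2 ⟨rfl, hn⟩) h
  · refine Finset.sum_eq_zero fun x hx => ?_
    rw [Nat.mem_divisorsAntidiagonal] at hx
    have ha : x.1 ≠ 0 := by intro h0; exact hn (by rw [← hx.1, h0, zero_mul])
    rw [dl_apply ha, if_neg, zero_mul]
    rintro rfl
    exact h ⟨_, hx.1.symm⟩

lemma dl_mul {N N' : ℕ} (hN : N ≠ 0) (r r' : R) :
    dl N r * dl N' r' = dl (N * N') (r * r') := by
  ext n
  by_cases hn : n = 0
  · subst hn
    simp
  · rw [dl_mul_apply hN r _ hn, dl_apply hn]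
    by_cases h : N ∣ n
    · obtain ⟨m, rfl⟩ := h
      have hm : m ≠ 0 := by rintro rfl; exact hn (by simp)
      rw [if_pos (dvd_mul_right _ _), Nat.mul_div_cancel_left m (Nat.pos_of_ne_zero hN),
        dl_apply hm]
      by_cases h2 : m = N'
      · rw [if_pos h2, if_pos (by rw [h2])]
      · rw [if_neg h2, if_neg, mul_zero]
        intro h3
        exact h2 (Nat.eq_of_mul_eq_mul_left (Nat.pos_of_ne_zero hN) h3)
    · rw [if_neg h, if_neg]
      rintro rfl
      exact h (dvd_mul_right _ _)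

/-- Division by a function with value `1` at `1`. -/
lemma zero_of_mul {u D : ArithmeticFunction R} (hu : u 1 = 1) {n : ℕ}
    (h : ∀ m, m ≠ 0 → m ≤ n → (u * D) m = 0) : ∀ m, m ≠ 0 → m ≤ n → D m = 0 := by
  classical
  intro m
  induction m using Nat.strong_induction_on with
  | _ m ih =>
    intro hm hmn
    have h1 := h m hm hmn
    rw [ArithmeticFunction.mul_apply, Finset.sum_eq_single (1, m), hu, one_mul] at h1
    · exact h1
    · rintro ⟨a, b⟩ hab hne
      rw [Nat.mem_divisorsAntidiagonal] at hab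
      have ha : a ≠ 0 := by rintro rfl; exact hm (by rw [← hab.1]; simp)
      have hb : b ≠ 0 := by rintro rfl; exact hm (by rw [← hab.1]; simp)
      have ha1 : a ≠ 1 := by
        rintro rfl
        exact hne (by rw [← hab.1]; simp)
      have hlt : b < m := by
        rw [← hab.1]
        have : 2 ≤ a := by omega
        have hb' : 0 < b := Nat.pos_of_ne_zero hb
        nlinarith
      show u a * D b = 0
      rw [ih b hlt hb (hlt.le.trans hmn), mul_zero]
    · intro h2
      exact absurd (Nat.mem_divisorsAntidiagonal.2 ⟨by simp, hm⟩) h2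

end ring

end Pool.Agent.J4.H48.BC
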