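import Pool.Agent.J4.H48.BC.Unit
import Pool.Agent.K4H33.SQ.Quartic

/-! Stark units of an extension with one complex place of a totally real field. -/

set_option autoImplicit false
set_option linter.style.haveILetI false
set_option linter.unusedSectionVars false

namespace Pool.Agent.J4.H48.BC
open NumberField Module IntermediateField Pool.Agent.K4H33.SK Pool.Agent.J4.H48.RQ
open Pool.Agent.K4H33.SQ (DeligneRibet IsConjAt PowerOn)

section

variable {F K H H₁ : IntermediateField ℚ Qbar}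

/-- An abelian extension is stable. -/
lemma stable (hab : ∀ σ τ : GQ, Fixes F σ → Fixes F τ → ∀ x ∈ H, σ (τ x) = τ (σ x))
    (hFK : F ≤ K) (hKH : K ≤ H) {σ : GQ} (hσ : Fixes F σ) {x : Qbar} (hx : x ∈ K) : σ x ∈ K := by
  apply mem_of_fixed
  intro τ hτ
  rw [hab τ σ (hτ.mono hFK) hσ x (hKH hx), hτ x hx]

/-- Automorphisms which fix the real subfield. -/
lemma fix_real [NumberField H]
    (hab : ∀ σ τ : GQ, Fixes F σ → Fixes F τ → ∀ x ∈ H, σ (τ x) = τ (σ x)) (hFH : F ≤ H)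
    {c : GQ} (hcF : Fixes F c) (hcc : c * c = 1) (hH₁ : ∀ x, x ∈ H₁ ↔ x ∈ H ∧ c x = x) {t : GQ}
    (ht : Fixes H₁ t) : (∀ x ∈ H, t x = x) ∨ (∀ x ∈ H, t x = c x) := by
  haveI : FiniteDimensional ℚ H := inferInstance
  obtain ⟨M, hM, hfin, hHM⟩ : ∃ M : IntermediateField ℚ Qbar, Normal ℚ M ∧
      FiniteDimensional ℚ M ∧ H ≤ M := by
    refine ⟨normalClosure ℚ H Qbar, normalClosure.normal ℚ H Qbar,
      normalClosure.is_finiteDimensional ℚ H Qbar, ?_⟩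
    have h := H.val.fieldRange_le_normalClosure
    rwa [IntermediateField.fieldRange_val] at h
  haveI := hM
  haveI := hfin
  haveI : NumberField M := ⟨⟩
  have hcH : ∀ x ∈ H, c x ∈ H := fun x hx => stable hab hFH le_rfl hcF hx
  have hc2 : ∀ x, c (c x) = x := fun x => by rw [← AlgEquiv.mul_apply, hcc, AlgEquiv.one_apply]
  set S : Set (M ≃ₐ[ℚ] M) := {g | ∃ s : GQ, rr M s = g ∧ (s = c ∨ Fixes H s)} with hS
  have h1 : rr M t ∈ Subgroup.closure S := by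
    refine mem_closure fun x hx => ht _ ((hH₁ _).2 ⟨?_, ?_⟩)
    · apply mem_of_fixed
      intro σ hσ
      have h2 := hx (rr M σ) ⟨σ, rfl, Or.inr hσ⟩
      rw [← rr_apply, h2]
    · have h2 := hx (rr M c) ⟨c, rfl, Or.inl rfl⟩
      rw [← rr_apply, h2]
  have h2 : ∀ g ∈ Subgroup.closure S, ∃ s : GQ, rr M s = g ∧
      ((∀ x ∈ H, s x = x) ∨ (∀ x ∈ H, s x = c x)) := by
    intro g hg
    induction hg using Subgroup.closure_induction with
    | mem g hg =>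
      obtain ⟨s, hs, rfl | h⟩ := hg
      · exact ⟨s, hs, Or.inr fun x _ => rfl⟩
      · exact ⟨s, hs, Or.inl h⟩
    | one => exact ⟨1, map_one _, Or.inl fun x _ => rfl⟩
    | mul g g' _ _ hg hg' =>
      obtain ⟨s, rfl, hs⟩ := hg
      obtain ⟨s', rfl, hs'⟩ := hg'
      refine ⟨s * s', map_mul _ _ _, ?_⟩
      rcases hs with hs | hs <;> rcases hs' with hs' | hs'
      · exact Or.inl fun x hx => by rw [AlgEquiv.mul_apply, hs' x hx, hs x hx]
      · exact Or.inr fun x hx => by rw [AlgEquiv.mul_apply, hs' x hx, hs _ (hcH x hx)]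
      · exact Or.inr fun x hx => by rw [AlgEquiv.mul_apply, hs' x hx, hs x hx]
      · exact Or.inl fun x hx => by rw [AlgEquiv.mul_apply, hs' x hx, hs _ (hcH x hx), hc2]
    | inv g _ hg =>
      obtain ⟨s, rfl, hs⟩ := hg
      refine ⟨s⁻¹, map_inv _ _, ?_⟩
      rcases hs with hs | hs
      · exact Or.inl fun x hx => by rw [AlgEquiv.aut_inv, AlgEquiv.symm_apply_eq, hs x hx]
      · exact Or.inr fun x hx => by
          rw [AlgEquiv.aut_inv, AlgEquiv.symm_apply_eq, hs _ (hcH x hx), hc2]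
  obtain ⟨s, hs, h3⟩ := h2 _ h1
  have h4 := rr_eq.1 hs
  rcases h3 with h3 | h3
  · exact Or.inl fun x hx => by rw [← h4 x (hHM hx), h3 x hx]
  · exact Or.inr fun x hx => by rw [← h4 x (hHM hx), h3 x hx]

/-- An embedding which is real on `K` does not agree with `ι` on `F`. -/
lemma ne_on_F {ι : Qbar →+* ℂ}
    (hab : ∀ σ τ : GQ, Fixes F σ → Fixes F τ → ∀ x ∈ H, σ (τ x) = τ (σ x))
    (hFK : F ≤ K) (hKH : K ≤ H) (hcx : ∃ x ∈ K, (ι x).im ≠ 0) {w : Qbar →+* ℂ}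
    (hw : ∀ x ∈ K, (w x).im = 0) : ∃ x ∈ F, w x ≠ ι x := by
  by_contra hcon
  push Not at hcon
  obtain ⟨τ, hτ⟩ := exists_lift ι w
  have hτF : Fixes F τ := by
    intro x hx
    apply ι.injective
    rw [← hτ]
    exact hcon x hx
  obtain ⟨z, hz, hz2⟩ := hcx
  apply hz2
  have h1 := hw _ (stable hab hFK hKH hτF.inv hz)
  rw [hτ, ← AlgEquiv.mul_apply, mul_inv_cancel, AlgEquiv.one_apply] at h1
  exact h1

end

section

variable {F K H H₁ : IntermediateField ℚ Qbar} [NumberField F] [NumberField K] [NumberField H]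
  {Q : Type} [CommGroup Q] [Fintype Q] (D : GD F H Q)

/-- The continuation of the partial zeta function of `K`. -/
noncomputable def ZZ (K : IntermediateField ℚ Qbar) (Z₁ Z₂ : GQ → ℂ → ℂ) (σ : GQ) (s : ℂ) : ℂ :=
  ∑ x : Q, (sg D K x : ℂ) * (Z₁ (D.lift (D.q σ * x⁻¹)) s * Z₂ (D.lift x) s)

variable {D} {Z₁ Z₂ : GQ → ℂ → ℂ}

lemma ZZ_isZeta {c₁ c₂ : GQ → ℕ → ℕ} {cK : ℕ → ℕ} {σ : GQ}
    (h1 : ∀ x : Q, IsZeta (c₁ (D.lift x)) (Z₁ (D.lift x)))
    (h2 : ∀ x : Q, IsZeta (c₂ (D.lift x)) (Z₂ (D.lift x)))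
    (h : ∀ n, n ≠ 0 → (cK n : ℤ) = ∑ x : Q, ∑ i ∈ n.divisorsAntidiagonal, sg D K x *
        ((c₁ (D.lift (D.q σ * x⁻¹)) i.1 : ℤ) * (c₂ (D.lift x) i.2 : ℤ))) :
    IsZeta cK (ZZ D K Z₁ Z₂ σ) := by
  constructor
  · unfold ZZ
    refine DifferentiableOn.fun_sum fun x _ => ?_
    exact DifferentiableOn.const_mul (DifferentiableOn.mul (h1 _).1 (h2 _).1) _
  · intro s hs
    have h3 : ∀ x ∈ (Finset.univ : Finset Q), LSeriesHasSum
        ((sg D K x : ℂ) • LSeries.convolution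
        (fun n : ℕ => (c₁ (D.lift (D.q σ * x⁻¹)) n : ℂ))
        (fun n : ℕ => (c₂ (D.lift x) n : ℂ))) s
        ((sg D K x : ℂ) * (Z₁ (D.lift (D.q σ * x⁻¹)) s * Z₂ (D.lift x) s)) :=
      fun x _ => (((h1 _).2 s hs).convolution ((h2 _).2 s hs)).smul _
    have h4 := LSeriesHasSum.sum h3
    refine (LSeriesHasSum_congr s _ (fun {n} hn => ?_)).1 h4
    have h5 : ((cK n : ℤ) : ℂ) = ((∑ x : Q, ∑ i ∈ n.divisorsAntidiagonal, sg D K x *
        ((c₁ (D.lift (D.q σ * x⁻¹)) i.1 : ℤ) * (c₂ (D.lift x) i.2 : ℤ)) : ℤ) : ℂ) := by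
      rw [h n hn]
    have h6 : (cK n : ℂ) = ((cK n : ℤ) : ℂ) := by push_cast; rfl
    rw [h6, h5, Finset.sum_apply]
    push_cast
    refine Finset.sum_congr rfl fun x _ => ?_
    rw [Pi.smul_apply, smul_eq_mul, LSeries.convolution_def, Finset.mul_sum]

lemma ZZ_zero {σ : GQ} (h1 : ∀ x : Q, Z₁ (D.lift x) 0 = 0) : ZZ D K Z₁ Z₂ σ 0 = 0 := by
  unfold ZZ
  refine Finset.sum_eq_zero fun x _ => ?_
  rw [h1, zero_mul, mul_zero]

lemma ZZ_deriv {σ : GQ} (h1 : ∀ x : Q, Z₁ (D.lift x) 0 = 0)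
    (h3 : ∀ x : Q, DifferentiableOn ℂ (Z₁ (D.lift x)) {1}ᶜ)
    (h4 : ∀ x : Q, DifferentiableOn ℂ (Z₂ (D.lift x)) {1}ᶜ) :
    deriv (ZZ D K Z₁ Z₂ σ) 0 = ∑ x : Q, (sg D K x : ℂ) *
      (deriv (Z₁ (D.lift (D.q σ * x⁻¹))) 0 * Z₂ (D.lift x) 0) := by
  have hn : ({1}ᶜ : Set ℂ) ∈ nhds (0 : ℂ) := isOpen_compl_singleton.mem_nhds (by simp)
  have h5 : HasDerivAt (ZZ D K Z₁ Z₂ σ) (∑ x : Q, (sg D K x : ℂ) *
      (deriv (Z₁ (D.lift (D.q σ * x⁻¹))) 0 * Z₂ (D.lift x) 0 +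
        Z₁ (D.lift (D.q σ * x⁻¹)) 0 * deriv (Z₂ (D.lift x)) 0)) 0 := by
    have h6 := HasDerivAt.fun_sum (u := (Finset.univ : Finset Q))
      (A := fun x s => (sg D K x : ℂ) * (Z₁ (D.lift (D.q σ * x⁻¹)) s * Z₂ (D.lift x) s))
      (x := (0 : ℂ))
      (fun x _ => ((((h3 (D.q σ * x⁻¹)).differentiableAt hn).hasDerivAt).mul
        (((h4 x).differentiableAt hn).hasDerivAt)).const_mul _)
    exact h6
  rw [h5.deriv]
  refine Finset.sum_congr rfl fun x _ => ?_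
  rw [h1, zero_mul, add_zero]

end

/-- **Base change.** -/
theorem base_change (ι : Qbar →+* ℂ) (F K H H₁ : IntermediateField ℚ Qbar) [NumberField F]
    [NumberField K] [NumberField H] (hFK : F ≤ K)
    (hdeg : finrank ℚ K = 2 * finrank ℚ F) (hKH : K ≤ H)
    (hreal : ∀ w : Qbar →+* ℂ, ∀ x ∈ F, (w x).im = 0) (hcx : ∃ x ∈ K, (ι x).im ≠ 0)
    (hrK : ∃ w : Qbar →+* ℂ, ∀ x ∈ K, (w x).im = 0)
    (hab : ∀ σ τ : GQ, Fixes F σ → Fixes F τ → ∀ x ∈ H, σ (τ x) = τ (σ x))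
    (hH₁ : ∀ x, x ∈ H₁ ↔ x ∈ H ∧ (ι x).im = 0) {f : ℕ} (hU : Unram H f)
    (artF : Ideal (𝓞 F) → GQ) (artK : Ideal (𝓞 K) → GQ)
    (hartF : IsArtin F H (Ideal.span {(f : 𝓞 F)}) artF)
    (hartK : IsArtin K H (Ideal.span {(f : 𝓞 K)}) artK)
    (hS : RQ.StarkReal ι F H₁ (Ideal.span {(f : 𝓞 F)}) artF 2)
    (hDR : DeligneRibet F H (Ideal.span {(f : 𝓞 F)}) artF) (W : ℕ) (hW : IsTorsionOrder H W) :
    StarkCubic ι K H (Ideal.span {(f : 𝓞 K)}) artK W := by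
  classical
  obtain ⟨Z₁, ε, hεH, hε0, hlim, hint, hint', hplace, -⟩ := hS
  obtain ⟨Z₂, θ, hDR⟩ := hDR
  obtain ⟨Q, _, _, ⟨D⟩⟩ := exists_gd (F := F) (H := H) hab
  have hFH : F ≤ H := hFK.trans hKH
  obtain ⟨c, hc⟩ := exists_conj ι
  have hcc : c * c = 1 := by
    ext x
    apply ι.injective
    rw [AlgEquiv.mul_apply, hc, hc, Complex.conj_conj, AlgEquiv.one_apply]
  have hcF : Fixes F c := by
    intro x hx
    apply ι.injective
    rw [hc]
    exact Complex.conj_eq_iff_im.2 (hreal ι x hx)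
  have hcK : ¬ Fixes K c := by
    intro h
    obtain ⟨x, hx, hx2⟩ := hcx
    apply hx2
    have h1 := hc x
    rw [h x hx] at h1
    exact Complex.conj_eq_iff_im.1 h1.symm
  obtain ⟨w₂, hw₂⟩ := hrK
  obtain ⟨σ₂, hσ₂⟩ := exists_lift ι w₂
  set c₂ : GQ := σ₂⁻¹ * c * σ₂ with hc₂def
  have hc₂ : ∀ x, w₂ (c₂ x) = (starRingEnd ℂ) (w₂ x) := by
    intro x
    rw [hσ₂, hσ₂, hc₂def, ← hc, ← AlgEquiv.mul_apply]
    have : σ₂ * (σ₂⁻¹ * c * σ₂) = c * σ₂ := by group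
    rw [this, AlgEquiv.mul_apply]
  have hcc₂ : c₂ * c₂ = 1 := by
    rw [hc₂def]
    calc σ₂⁻¹ * c * σ₂ * (σ₂⁻¹ * c * σ₂) = σ₂⁻¹ * (c * c) * σ₂ := by group
      _ = 1 := by rw [hcc]; group
  have hc₂K : Fixes K c₂ := by
    intro x hx
    apply w₂.injective
    rw [hc₂]
    exact Complex.conj_eq_iff_im.2 (hw₂ x hx)
  have hc₂F : Fixes F c₂ := hc₂K.mono hFK
  -- the fields
  have hH₁' : ∀ x, x ∈ H₁ ↔ x ∈ H ∧ c x = x := fun x => by rw [hH₁, im_iff hc]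
  have hH₁H : H₁ ≤ H := fun x hx => ((hH₁ x).1 hx).1
  have hcH₁ : Fixes H₁ c := fun x hx => ((hH₁' x).1 hx).2
  have hall : ∀ t : GQ, Fixes H₁ t → (∀ x ∈ H, t x = x) ∨ (∀ x ∈ H, t x = c x) := fun t ht =>
    fix_real hab hFH hcF hcc hH₁' ht
  have hstab : ∀ {σ : GQ}, Fixes F σ → ∀ {x : Qbar}, x ∈ H → σ x ∈ H := fun hσ _ hx =>
    stable hab hFH le_rfl hσ hx
  -- the group
  have hmul := sg_mul D hFK hdeg hKH
  set b : Q := D.q c with hb
  set b₂ : Q := D.q c₂ with hb₂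
  have hbb : b * b = 1 := by rw [hb, ← D.q_mul _ _ hcF hcF, hcc, D.q_one]
  have hbb₂ : b₂ * b₂ = 1 := by rw [hb₂, ← D.q_mul _ _ hc₂F hc₂F, hcc₂, D.q_one]
  have hsK : ∀ σ : GQ, Fixes F σ → (sg D K (D.q σ) = 1 ↔ Fixes K σ) := fun σ hσ => by
    rw [sg_one_iff]
    exact D.fix_iff hKH (D.lift_fix _) hσ (D.q_lift _)
  have hsb : sg D K b = -1 := by
    rcases sg_cases D (K := K) b with h | h
    · exact absurd ((hsK c hcF).1 h) hcK
    · exact h
  have hsb₂ : sg D K b₂ = 1 := (hsK c₂ hc₂F).2 hc₂K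
  have hsg2 : ∀ x, sg D K x * sg D K x = 1 := fun x => by
    rcases sg_cases D (K := K) x with h | h <;> rw [h] <;> norm_num
  -- lifts
  have hlq : ∀ σ : GQ, Fixes F σ → ∀ x ∈ H, D.lift (D.q σ) x = σ x := fun σ hσ =>
    (D.q_eq _ _ (D.lift_fix _) hσ).1 (D.q_lift _)
  have hlm : ∀ (σ : GQ), Fixes F σ → ∀ (y : Q), ∀ x ∈ H, D.lift (D.q σ * y) x = σ (D.lift y x) := by
    intro σ hσ y
    exact (D.q_eq _ (σ * D.lift y) (D.lift_fix _) (hσ.mul (D.lift_fix _))).1 (by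
      rw [D.q_lift, D.q_mul _ _ hσ (D.lift_fix _), D.q_lift])
  -- the conjugates of the unit
  set E : Q → Qbar := fun x => D.lift x ε with hE
  have hεH' : ε ∈ H := hH₁H hεH
  have hE0 : ∀ x, E x ≠ 0 := fun x => by simpa [hE] using hε0
  have hEH : ∀ x, E x ∈ H := fun x => hstab (D.lift_fix x) hεH'
  have hEact : ∀ (τ : GQ), Fixes F τ → ∀ x, τ (E x) = E (D.q τ * x) := fun τ hτ x =>
    (hlm τ hτ x ε hεH').symm
  have hEb : ∀ x, E (b * x) = E x := by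
    intro x
    rw [hb, ← hEact c hcF]
    show c (D.lift x ε) = D.lift x ε
    rw [hab c (D.lift x) hcF (D.lift_fix x) ε hεH', hcH₁ ε hεH]
  have hEw : ∀ w : Qbar →+* ℂ, (∀ x ∈ K, (w x).im = 0) → ∀ x, ‖w (E x)‖ = 1 := by
    intro w hw x
    obtain ⟨z, hz, hz2⟩ := ne_on_F hab hFK hKH hcx hw
    refine hplace (w.comp ((D.lift x : GQ) : Qbar →+* Qbar)) ⟨z, hz, ?_⟩
    have h9 : (w.comp ((D.lift x : GQ) : Qbar →+* Qbar)) z = w z := congrArg w (D.lift_fix x z hz)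
    rw [h9]
    exact hz2
  have hEb₂ : ∀ x, E (b₂ * x) = (E x)⁻¹ := by
    intro x
    rw [hb₂, ← hEact c₂ hc₂F]
    apply w₂.injective
    rw [hc₂, map_inv₀, Complex.inv_eq_conj (hEw w₂ hw₂ x)]
  -- the Stickelberger element
  have hwd : ∀ σ τ : GQ, Fixes F σ → Fixes F τ → (∀ x ∈ H, σ x = τ x) → θ σ = θ τ := by
    intro σ τ hσ hτ h
    have h1 := (isZeta_deriv (hDR σ hσ).1.1 (hDR τ hτ).1.1 (fun n _ =>
      cnt_congr F H (Ideal.span {(f : 𝓞 F)}) artF h n)).2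
    rw [(hDR σ hσ).1.2, (hDR τ hτ).1.2] at h1
    exact_mod_cast h1
  have hθm : ∀ (σ : GQ), Fixes F σ → ∀ y : Q, θ (D.lift (D.q σ * y)) = θ (σ * D.lift y) :=
    fun σ hσ y => hwd _ _ (D.lift_fix _) (hσ.mul (D.lift_fix _)) (hlm σ hσ y)
  set Θ : Q → ℚ := fun x => sg D K x * θ (D.lift x) with hΘ
  have hΘb : ∀ x, Θ (b * x) = Θ x := by
    intro x
    simp only [hΘ]
    rw [hmul, hsb, hb, hθm c hcF, (hDR _ (D.lift_fix x)).2.1 c ⟨ι, hreal ι, hc⟩]
    push_cast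
    ring
  have hΘb₂ : ∀ x, Θ (b₂ * x) = -Θ x := by
    intro x
    simp only [hΘ]
    rw [hmul, hsb₂, hb₂, hθm c₂ hc₂F, (hDR _ (D.lift_fix x)).2.1 c₂ ⟨w₂, hreal w₂, hc₂⟩]
    push_cast
    ring
  have hΘW : ∀ x, ∃ t : ℤ, (W : ℚ) * Θ x = t := by
    intro x
    obtain ⟨t, ht⟩ := (hDR _ (D.lift_fix x)).2.2 1 (1 + W) (Fixes.one F) (by
      intro ξ hξ hm
      have h1 : ξ ^ W = 1 := (hW.2 ξ).1 ⟨hξ, hm⟩
      rw [AlgEquiv.one_apply, pow_add, pow_one, h1, mul_one])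
    rw [one_mul] at ht
    refine ⟨-(sg D K x * t), ?_⟩
    simp only [hΘ]
    push_cast at ht ⊢
    rw [← ht]
    ring
  have hΘn : ∀ (σ : GQ), Fixes K σ → ∃ (n : ℕ) (u : Q → ℤ),
      (∀ ξ : Qbar, ξ ^ W = 1 → σ ξ = ξ ^ n) ∧ (∀ x, (u x : ℚ) = Θ (D.q σ * x) - n * Θ x) := by
    intro σ hσ
    have hσF : Fixes F σ := hσ.mono hFK
    obtain ⟨n, -, hn⟩ := exists_pow hW.1 σ
    have h1 : ∀ x, ∃ u : ℤ, (u : ℚ) = Θ (D.q σ * x) - n * Θ x := by
      intro x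
      obtain ⟨t, ht⟩ := (hDR _ (D.lift_fix x)).2.2 σ n hσF
        (fun ξ hξ hm => hn ξ ((hW.2 ξ).1 ⟨hξ, hm⟩))
      refine ⟨sg D K x * t, ?_⟩
      simp only [hΘ]
      rw [hmul, (hsK σ hσF).2 hσ, hθm σ hσF]
      push_cast
      rw [← ht]
      ring
    choose u hu using h1
    exact ⟨n, u, hn, hu⟩
  choose T hT using hΘW
  set V : Subgroup Q := Subgroup.closure {b, b₂} with hV
  -- good exponents
  have hgood : ∀ t : Q → ℤ, (∀ x, t (b * x) = t x) → (∀ x, t (b₂ * x) = -t x) →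
      ∀ y, Good V E (fun x => t (y * x)) := by
    intro t h1 h2 y
    refine good_of hV hEb hEb₂ hbb hbb₂ (fun x => ?_) (fun x => ?_)
    · rw [mul_left_comm, h1]
    · rw [mul_left_comm, h2]
  have hTb : ∀ x, T (b * x) = T x := by
    intro x
    have h1 : (T (b * x) : ℚ) = T x := by rw [← hT, ← hT, hΘb]
    exact_mod_cast h1
  have hTb₂ : ∀ x, T (b₂ * x) = -T x := by
    intro x
    have h1 : (T (b₂ * x) : ℚ) = -(T x : ℚ) := by rw [← hT, ← hT, hΘb₂]; ring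
    exact_mod_cast h1
  have hact : ∀ (τ : GQ), Fixes F τ → ∀ t : Q → ℤ, (∀ x, t (b * x) = t x) →
      (∀ x, t (b₂ * x) = -t x) → τ (mm V E t) = mm V E (fun x => t (D.q τ * x)) :=
    fun τ hτ t h1 h2 => mm_act (hEact τ hτ) (hgood t h1 h2 _)
  refine ⟨ZZ D K Z₁ Z₂, mm V E T, mm_mem hEH T, mm_ne hE0 T, ?_, mm_integral ?_ ?_ T, ?_,
    fun w hw => mm_norm (hEw w hw) T, ?_⟩
  · -- the limit formula
    intro σ hσ
    have hσF : Fixes F σ := hσ.mono hFK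
    have z0 : ∀ x : Q, Z₁ (D.lift x) 0 = 0 := fun x => (hlim _ (D.lift_fix x)).2.1
    refine ⟨?_, ZZ_zero z0, ?_⟩
    · refine ZZ_isZeta (c₁ := cnt F H₁ (Ideal.span {(f : 𝓞 F)}) artF)
        (c₂ := cnt F H (Ideal.span {(f : 𝓞 F)}) artF) (fun x => (hlim _ (D.lift_fix x)).1)
        (fun x => (hDR _ (D.lift_fix x)).1.1) (fun n hn => ?_)
      have h1 : cnt K H (Ideal.span {(f : 𝓞 K)}) artK σ n =
          cnt K H (Ideal.span {(f : 𝓞 K)}) artK (D.lift (D.q σ)) n :=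
        cnt_congr K H _ artK (fun x hx => (hlq σ hσF x hx).symm) n
      rw [h1]
      refine cnt_K hFK hdeg hKH le_rfl (fun σ hσ x hx => hstab hσ hx) hU hartF hartK hcF hcK hcc hH₁H hcH₁ hall (D.q σ) ?_ hn
      rw [← sg_one_iff]
      exact (hsK σ hσF).2 hσ
    · rw [ZZ_deriv z0 (fun x => (hlim _ (D.lift_fix x)).1.1) (fun x => (hDR _ (D.lift_fix x)).1.1.1)]
      set r : Q → ℝ := fun y => Real.log ‖ι (D.lift y ε)‖ with hr
      have hr1 : ∀ y, (r y : ℂ) = -2 * deriv (Z₁ (D.lift y)) 0 := fun y => by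
        have h1 := (hlim _ (D.lift_fix y)).2.2
        push_cast at h1
        exact h1
      set S : ℝ := ∑ x : Q, (T x : ℝ) * r (D.q σ * x⁻¹) with hSdef
      have hR : -(W : ℂ) * ∑ x : Q, (sg D K x : ℂ) *
          (deriv (Z₁ (D.lift (D.q σ * x⁻¹))) 0 * Z₂ (D.lift x) 0) = ((S / 2 : ℝ) : ℂ) := by
        rw [hSdef, Finset.sum_div]
        push_cast
        rw [Finset.mul_sum]
        refine Finset.sum_congr rfl fun x _ => ?_
        have h1 : ((T x : ℤ) : ℂ) = (W : ℂ) * ((sg D K x : ℂ) * Z₂ (D.lift x) 0) := by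
          have h2 : (((T x : ℤ) : ℚ) : ℂ) = (((W : ℚ) * Θ x : ℚ) : ℂ) := by rw [hT]
          rw [(hDR _ (D.lift_fix x)).1.2]
          simp only [hΘ] at h2
          push_cast at h2 ⊢
          exact h2
        rw [hr1, h1]
        ring
      rw [hR]
      -- the logarithm of the unit
      set ℓ : ℝ := Real.log ‖ι (σ (mm V E T))‖ with hℓ
      have hlog : Real.log (‖ι (σ (mm V E T))‖ ^ 2) = 2 * ℓ := by
        rw [Real.log_pow]
        push_cast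
        rfl
      rw [hlog]
      congr 1
      have hVl : (Nat.card V : ℝ) * ℓ = S := by
        have h1 := mm_log (V := V) (ι.comp ((σ : GQ) : Qbar →+* Qbar)) hE0 (t := T) (by
          have h2 := hgood T hTb hTb₂ 1
          simpa only [one_mul] using h2)
        have h3 : ∀ y, (ι.comp ((σ : GQ) : Qbar →+* Qbar)) y = ι (σ y) := fun y => rfl
        simp only [h3, hEact σ hσF] at h1
        rw [hℓ, h1, hSdef, ← Equiv.sum_comp (Equiv.inv Q)]
        refine Finset.sum_congr rfl fun x _ => ?_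
        rw [Equiv.inv_apply, inv_inv]
      by_cases hb1 : b₂ = 1
      · have hT0 : ∀ x, T x = 0 := by
          intro x
          have h1 := hTb₂ x
          rw [hb1, one_mul] at h1
          omega
        have hS0 : S = 0 := by
          rw [hSdef]
          refine Finset.sum_eq_zero fun x _ => ?_
          rw [hT0, Int.cast_zero, zero_mul]
        have hm : mm V E T = 1 := by
          have : T = fun _ => 0 := funext hT0
          rw [this, mm_zero]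
        rw [hS0, hℓ, hm, map_one, map_one, norm_one, Real.log_one]
        ring
      · have hbne : b ≠ 1 := by
          intro h
          have h1 : sg D K (1 : Q) = 1 := by
            have h2 := (hsK 1 (Fixes.one F)).2 (Fixes.one K)
            rwa [D.q_one] at h2
          rw [← h, hsb] at h1
          norm_num at h1
        have hne : b ≠ b₂ := by
          intro h
          rw [h, hsb₂] at hsb
          norm_num at hsb
        have h4 := card_closure hbb hbb₂ hbne hb1 hne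
        rw [hV, h4] at hVl
        push_cast at hVl
        linarith
  · intro x
    exact hint.map ((D.lift x : GQ) : Qbar →+* Qbar).toIntAlgHom
  · intro x
    have h1 := hint'.map ((D.lift x : GQ) : Qbar →+* Qbar).toIntAlgHom
    have h2 : ((D.lift x : GQ) : Qbar →+* Qbar).toIntAlgHom ε⁻¹ = (E x)⁻¹ := map_inv₀ (D.lift x) ε
    rwa [h2] at h1
  · rw [← mm_neg]
    refine mm_integral (fun x => ?_) (fun x => ?_) _
    · exact hint.map ((D.lift x : GQ) : Qbar →+* Qbar).toIntAlgHom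
    · have h1 := hint'.map ((D.lift x : GQ) : Qbar →+* Qbar).toIntAlgHom
      have h2 : ((D.lift x : GQ) : Qbar →+* Qbar).toIntAlgHom ε⁻¹ = (E x)⁻¹ :=
        map_inv₀ (D.lift x) ε
      rwa [h2] at h1
  · -- the abelian root property
    intro lam hlam σ τ hσ hτ
    have hσF : Fixes F σ := hσ.mono hFK
    have hτF : Fixes F τ := hτ.mono hFK
    have hlam0 : lam ≠ 0 := by
      rintro rfl
      rw [zero_pow hW.1.ne'] at hlam
      exact mm_ne hE0 T hlam.symm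
    obtain ⟨n, u, hn1, hu⟩ := hΘn σ hσ
    obtain ⟨m, v, hm1, hv⟩ := hΘn τ hτ
    have hgb : ∀ (σ : GQ) (n : ℕ) (u : Q → ℤ), (∀ x, (u x : ℚ) = Θ (D.q σ * x) - n * Θ x) →
        ∀ x, u (b * x) = u x := by
      intro σ n u hu x
      have h1 : (u (b * x) : ℚ) = u x := by
        rw [hu, hu, mul_left_comm, hΘb, hΘb]
      exact_mod_cast h1
    have hgb₂ : ∀ (σ : GQ) (n : ℕ) (u : Q → ℤ), (∀ x, (u x : ℚ) = Θ (D.q σ * x) - n * Θ x) →
        ∀ x, u (b₂ * x) = -u x := by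
      intro σ n u hu x
      have h1 : (u (b₂ * x) : ℚ) = -(u x : ℚ) := by
        rw [hu, hu, mul_left_comm, hΘb₂, hΘb₂]
        ring
      exact_mod_cast h1
    have hpw : ∀ (σ : GQ), Fixes F σ → ∀ (n : ℕ) (u : Q → ℤ),
        (∀ x, (u x : ℚ) = Θ (D.q σ * x) - n * Θ x) →
        (σ lam) ^ W = (lam ^ n * mm V E u) ^ W := by
      intro σ hσ n u hu
      rw [← map_pow, hlam, hact σ hσ T hTb hTb₂, mul_pow, ← pow_mul, mul_comm n W, pow_mul, hlam,
        mm_pow, mm_pow, ← mm_add hE0]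
      congr 1
      ext x
      have h1 : (T (D.q σ * x) : ℚ) = n * T x + W * u x := by
        rw [← hT, ← hT, hu]
        ring
      rw [Pi.add_apply]
      exact_mod_cast h1
    refine comm_of_cocycle hlam0 (mm_ne hE0 u) (mm_ne hE0 v) hn1 hm1 (hpw σ hσF n u hu)
      (hpw τ hτF m v hv) ?_
    rw [hact τ hτF u (hgb σ n u hu) (hgb₂ σ n u hu), hact σ hσF v (hgb τ m v hv) (hgb₂ τ m v hv),
      mm_pow, mm_pow, ← mm_add hE0, ← mm_add hE0]
    congr 1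
    ext x
    rw [Pi.add_apply, Pi.add_apply]
    have h1 : (n : ℚ) * v x + u (D.q τ * x) = m * u x + v (D.q σ * x) := by
      rw [hu, hu, hv, hv, mul_left_comm (D.q σ) (D.q τ) x]
      ring
    exact_mod_cast h1

end Pool.Agent.J4.H48.BC
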