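import Pool.Agent.J4.H48.BC.Grp

/-! The recursion at primes and the comparison of the numbers of ideals. -/

set_option autoImplicit false
set_option linter.style.haveILetI false
set_option linter.unusedSectionVars false

namespace Pool.Agent.J4.H48.BC
open NumberField Module IntermediateField Pool.Agent.K4H33.SK Pool.Agent.J4.H48.RQ

section

variable {F B K H M : IntermediateField ℚ Qbar} [NumberField F] [NumberField B] [NumberField K]
  [NumberField M] {Q : Type} [CommGroup Q] [Fintype Q] (D : GD F H Q) {R : Type} [CommRing R]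
  (ψ : Q →* R)

/-- The generating function of the numbers of ideals. -/
noncomputable def AA (B : IntermediateField ℚ Qbar) [NumberField B] (𝔤 : Ideal (𝓞 B))
    (art : Ideal (𝓞 B) → GQ) : ArithmeticFunction R :=
  ⟨fun n => if n = 0 then 0 else ∑ x : Q, (cnt B H 𝔤 art (D.lift x) n : R) * ψ x, if_pos rfl⟩

lemma AA_apply {𝔤 : Ideal (𝓞 B)} {art : Ideal (𝓞 B) → GQ} {n : ℕ} (hn : n ≠ 0) :
    AA D ψ B 𝔤 art n = ∑ x : Q, (cnt B H 𝔤 art (D.lift x) n : R) * ψ x := by
  show (if n = 0 then 0 else _) = _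
  rw [if_neg hn]

lemma AA_congr {𝔤 𝔤' : Ideal (𝓞 B)} {art : Ideal (𝓞 B) → GQ}
    (h : ∀ 𝔟 : Ideal (𝓞 B), IsCoprime 𝔟 𝔤 ↔ IsCoprime 𝔟 𝔤') :
    AA D ψ B 𝔤 art = AA D ψ B 𝔤' art := by
  ext n
  by_cases hn : n = 0
  · subst hn; simp
  · rw [AA_apply D ψ hn, AA_apply D ψ hn]
    exact Finset.sum_congr rfl fun x _ => by rw [cnt_modulus art h]

/-- The recursion at a prime. -/
theorem AA_prime (hFB : F ≤ B) (hHM : H ≤ M) {𝔪 𝔤 P : Ideal (𝓞 B)} {art : Ideal (𝓞 B) → GQ}
    (hart : IsArtin B M 𝔪 art) (hc : ∀ 𝔟 : Ideal (𝓞 B), IsCoprime 𝔟 𝔤 → IsCoprime 𝔟 𝔪)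
    (hP : P.IsPrime) (hP0 : P ≠ ⊥) (hPg : IsCoprime P 𝔤) :
    (1 - dl (Ideal.absNorm P) (ψ (D.q (art P)))) * AA D ψ B 𝔤 art = AA D ψ B (𝔤 * P) art := by
  classical
  have hN : Ideal.absNorm P ≠ 0 := fun h => hP0 (Ideal.absNorm_eq_zero_iff.1 h)
  have hfix : Fixes F (art P) := Fixes.mono hFB (hart.fix P (hc P hPg))
  rw [sub_mul, one_mul, sub_eq_iff_eq_add]
  ext n
  by_cases hn : n = 0
  · subst hn; simp
  rw [ArithmeticFunction.add_apply, AA_apply D ψ hn, AA_apply D ψ hn, dl_mul_apply hN _ _ hn]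
  have h1 : ∀ x : Q, (cnt B H 𝔤 art (D.lift x) n : R) = cnt B H (𝔤 * P) art (D.lift x) n +
      (if Ideal.absNorm P ∣ n then
        (cnt B H 𝔤 art ((art P)⁻¹ * D.lift x) (n / Ideal.absNorm P) : R) else 0) := by
    intro x
    rw [cnt_prime hart hHM hc hP hP0 hPg (D.lift x) n]
    split_ifs <;> push_cast <;> ring
  simp only [h1, add_mul, Finset.sum_add_distrib]
  congr 1
  split_ifs with hd
  · have hn' : n / Ideal.absNorm P ≠ 0 := by
      obtain ⟨m, rfl⟩ := hd
      rw [Nat.mul_div_cancel_left m (Nat.pos_of_ne_zero hN)]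
      rintro rfl
      exact hn (by simp)
    rw [AA_apply D ψ hn', Finset.mul_sum, ← Equiv.sum_comp (Equiv.mulLeft (D.q (art P)))]
    refine Finset.sum_congr rfl fun y _ => ?_
    rw [Equiv.coe_mulLeft, map_mul]
    have h2 : cnt B H 𝔤 art ((art P)⁻¹ * D.lift (D.q (art P) * y)) (n / Ideal.absNorm P) =
        cnt B H 𝔤 art (D.lift y) (n / Ideal.absNorm P) := by
      refine cnt_congr B H 𝔤 art (fun x hx => ?_) _
      have h3 : ∀ x ∈ H, D.lift (D.q (art P) * y) x = (art P * D.lift y) x := by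
        rw [← D.q_eq _ _ (D.lift_fix _) (hfix.mul (D.lift_fix _)), D.q_lift,
          D.q_mul _ _ hfix (D.lift_fix _), D.q_lift]
      rw [AlgEquiv.mul_apply, h3 x hx, AlgEquiv.mul_apply, ← AlgEquiv.mul_apply, inv_mul_cancel,
        AlgEquiv.one_apply]
    rw [h2]
    ring
  · simp

/-- Without primes of small norm. -/
theorem AA_base (hHM : H ≤ M) {f : ℕ} {𝔤 : Ideal (𝓞 B)} {art : Ideal (𝓞 B) → GQ}
    (hart : IsArtin B M (Ideal.span {(f : 𝓞 B)}) art) {n : ℕ}
    (hn : ∀ P : Ideal (𝓞 B), P.IsPrime → P ≠ ⊥ → Ideal.absNorm P ≤ n → ¬ IsCoprime P 𝔤) {m : ℕ}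
    (hm : m ≠ 0) (hmn : m ≤ n) : AA D ψ B 𝔤 art m = if m = 1 then 1 else 0 := by
  classical
  rw [AA_apply D ψ hm]
  have hct : IsCoprime (⊤ : Ideal (𝓞 B)) 𝔤 := by
    rw [← Ideal.one_eq_top]
    exact isCoprime_one_left
  split_ifs with h1
  · subst h1
    have h2 : ∀ σ : GQ, cnt B H 𝔤 art σ 1 = if (∀ x ∈ H, σ x = x) then 1 else 0 := by
      intro σ
      unfold cnt
      split_ifs with h
      · rw [Nat.card_eq_one_iff_unique]
        constructor
        · constructor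
          rintro ⟨𝔟, h1, -⟩ ⟨𝔠, h2, -⟩
          rw [Ideal.absNorm_eq_one_iff] at h1 h2
          subst h1 h2
          rfl
        · exact ⟨⟨⊤, Ideal.absNorm_top, hct, fun x hx => by
            rw [art_top hart x (hHM hx), h x hx]⟩⟩
      · rw [Nat.card_eq_zero]
        left
        rw [isEmpty_subtype]
        rintro 𝔟 ⟨h1, -, h3⟩
        apply h
        intro x hx
        rw [Ideal.absNorm_eq_one_iff] at h1
        subst h1
        rw [← h3 x hx, art_top hart x (hHM hx)]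
    have h3 : ∀ x : Q, (∀ y ∈ H, D.lift x y = y) ↔ x = 1 := by
      intro x
      have h4 : D.q 1 = 1 := by
        have h5 := D.q_mul 1 1 (Fixes.one F) (Fixes.one F)
        rw [mul_one] at h5
        exact mul_eq_left.1 h5.symm
      have h6 := D.q_eq (D.lift x) 1 (D.lift_fix x) (Fixes.one F)
      rw [D.q_lift, h4] at h6
      exact h6.symm
    simp only [h2, h3]
    simp
  · refine Finset.sum_eq_zero fun x _ => ?_
    have h2 : cnt B H 𝔤 art (D.lift x) m = 0 := by
      unfold cnt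
      rw [Nat.card_eq_zero]
      left
      rw [isEmpty_subtype]
      rintro 𝔟 ⟨h3, h4, -⟩
      have h5 : 𝔟 ≠ ⊤ := by
        rintro rfl
        rw [Ideal.absNorm_top] at h3
        exact h1 h3.symm
      obtain ⟨P, hP, hbP⟩ := Ideal.exists_le_maximal 𝔟 h5
      have hP0 : P ≠ ⊥ := by
        rintro rfl
        rw [le_bot_iff] at hbP
        rw [hbP, Ideal.absNorm_bot] at h3
        exact hm h3.symm
      have h6 : Ideal.absNorm P ≤ n := by
        have h7 : Ideal.absNorm P ∣ m := by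
          rw [← h3]
          exact Ideal.absNorm_dvd_absNorm_of_le hbP
        exact (Nat.le_of_dvd (Nat.pos_of_ne_zero hm) h7).trans hmn
      apply hn P hP.isPrime hP0 h6
      exact IsCoprime.of_isCoprime_of_dvd_left h4 (Ideal.dvd_iff_le.2 hbP)
    rw [h2, Nat.cast_zero, zero_mul]

lemma GD.q_one : D.q 1 = 1 := by
  have h5 := D.q_mul 1 1 (Fixes.one F) (Fixes.one F)
  rw [mul_one] at h5
  exact mul_eq_left.1 h5.symm

lemma GD.fix_iff {L : IntermediateField ℚ Qbar} (hLH : L ≤ H) {σ τ : GQ} (hσ : Fixes F σ)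
    (hτ : Fixes F τ) (h : D.q σ = D.q τ) : Fixes L σ ↔ Fixes L τ := by
  rw [D.q_eq σ τ hσ hτ] at h
  exact ⟨fun h1 x hx => by rw [← h x (hLH hx)]; exact h1 x hx,
    fun h1 x hx => by rw [h x (hLH hx)]; exact h1 x hx⟩

lemma af_sub (A B : ArithmeticFunction R) (n : ℕ) : (A - B) n = A n - B n := by
  rw [sub_eq_add_neg, ArithmeticFunction.add_apply, sub_eq_add_neg]
  rfl

/-- The prime of `F` below a prime of `K`. -/
lemma prime_below (hFK : F ≤ K) {P : Ideal (𝓞 K)} (hP : P.IsPrime) (hP0 : P ≠ ⊥) :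
    (P.comap (inc hFK)).IsPrime ∧ P.comap (inc hFK) ≠ ⊥ ∧
      Ideal.absNorm (P.comap (inc hFK)) ≤ Ideal.absNorm P := by
  haveI := hP
  haveI := hP.isMaximal hP0
  letI alg : Algebra F K := (IntermediateField.inclusion hFK).toAlgebra
  haveI tow : IsScalarTower ℚ F K := IsScalarTower.of_algebraMap_eq fun x => rfl
  obtain ⟨p, n, hn, hpP, hp, hN⟩ := Ideal.exists_prime_and_absNorm_eq_pow P
  have h1 : (p : 𝓞 F) ∈ P.comap (inc hFK) := by
    rw [Ideal.mem_comap, map_natCast]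
    exact hpP
  have h2 : (P.comap (inc hFK)).IsPrime := Ideal.comap_isPrime (inc hFK) P
  refine ⟨h2, under_prime_ne_bot hp h1, ?_⟩
  obtain ⟨j, hj, h3⟩ := absNorm_above (F := F) (K := K) (𝔭 := P.comap (inc hFK)) hP rfl
  rw [h3]
  refine Nat.le_self_pow hj.ne' _

/-- **The comparison.** -/
theorem compare (hFK : F ≤ K) (hdeg : finrank ℚ K = 2 * finrank ℚ F) (hKH : K ≤ H) (hHM : H ≤ M)
    (hst : ∀ σ : GQ, Fixes F σ → ∀ x ∈ M, σ x ∈ M) {f : ℕ} (hU : Unram M f) {artF : Ideal (𝓞 F) → GQ}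
    {artK : Ideal (𝓞 K) → GQ} (hartF : IsArtin F M (Ideal.span {(f : 𝓞 F)}) artF)
    (hartK : IsArtin K M (Ideal.span {(f : 𝓞 K)}) artK) (ψp ψm : Q →* R)
    (h1 : ∀ x, Fixes K (D.lift x) → ψm x = ψp x) (h2 : ∀ x, ¬ Fixes K (D.lift x) → ψm x = -ψp x)
    {n : ℕ} (hn : n ≠ 0) :
    (AA D ψp F (Ideal.span {(f : 𝓞 F)}) artF * AA D ψm F (Ideal.span {(f : 𝓞 F)}) artF) n =
      AA D ψp K (Ideal.span {(f : 𝓞 K)}) artK n := by
  classical
  set X : Ideal (𝓞 F) → ArithmeticFunction R := fun 𝔤 => AA D ψp F 𝔤 artF * AA D ψm F 𝔤 artF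
    with hX
  set X' : Ideal (𝓞 F) → ArithmeticFunction R := fun 𝔤 => AA D ψp K (𝔤.map (inc hFK)) artK
    with hX'
  set S : Ideal (𝓞 F) → Set (Ideal (𝓞 F)) := fun 𝔤 =>
    {𝔭 | 𝔭.IsPrime ∧ 𝔭 ≠ ⊥ ∧ Ideal.absNorm 𝔭 ≤ n ∧ IsCoprime 𝔭 𝔤} with hS
  have hSfin : ∀ 𝔤, (S 𝔤).Finite := fun 𝔤 =>
    (Ideal.finite_setOfPred_absNorm_le (S := 𝓞 F) n).subset fun 𝔭 h => h.2.2.1
  have hmapf : (Ideal.span {(f : 𝓞 F)}).map (inc hFK) = Ideal.span {(f : 𝓞 K)} := by
    rw [Ideal.map_span, Set.image_singleton, map_natCast]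
  have key : ∀ k : ℕ, ∀ 𝔤 : Ideal (𝓞 F), (Ideal.span {(f : 𝓞 F)} ∣ 𝔤) → (S 𝔤).ncard = k →
      ∀ m, m ≠ 0 → m ≤ n → (X 𝔤 - X' 𝔤) m = 0 := by
    intro k
    induction k using Nat.strong_induction_on with
    | _ k ih =>
      intro 𝔤 h𝔤 hk
      have hcF : ∀ 𝔟 : Ideal (𝓞 F), IsCoprime 𝔟 𝔤 → IsCoprime 𝔟 (Ideal.span {(f : 𝓞 F)}) :=
        fun 𝔟 h => IsCoprime.of_isCoprime_of_dvd_right h h𝔤
      have h𝔤' : Ideal.span {(f : 𝓞 K)} ∣ 𝔤.map (inc hFK) := by
        obtain ⟨J, hJ⟩ := h𝔤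
        rw [hJ, Ideal.map_mul, hmapf]
        exact dvd_mul_right _ _
      have hcK : ∀ 𝔟 : Ideal (𝓞 K), IsCoprime 𝔟 (𝔤.map (inc hFK)) →
          IsCoprime 𝔟 (Ideal.span {(f : 𝓞 K)}) :=
        fun 𝔟 h => IsCoprime.of_isCoprime_of_dvd_right h h𝔤'
      by_cases hE : (S 𝔤).Nonempty
      · obtain ⟨𝔭, hp, hp0, hpn, hpc⟩ := hE
        have hlt : (S (𝔤 * 𝔭)).ncard < k := by
          rw [← hk]
          refine Set.ncard_lt_ncard ?_ (hSfin _)
          refine ⟨fun 𝔮 h => ⟨h.1, h.2.1, h.2.2.1, (IsCoprime.mul_right_iff.1 h.2.2.2).1⟩,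
            fun h => ?_⟩
          have h3 := (h (show 𝔭 ∈ S 𝔤 from ⟨hp, hp0, hpn, hpc⟩)).2.2.2
          have h4 := (IsCoprime.mul_right_iff.1 h3).2
          rw [isCoprime_prime_iff hp hp0] at h4
          exact h4 le_rfl
        have hind := ih _ hlt (𝔤 * 𝔭) (h𝔤.trans (dvd_mul_right _ _)) rfl
        set q := Ideal.absNorm 𝔭 with hq
        have hq1 := one_lt_absNorm hp hp0
        rw [← hq] at hq1
        set φ := artF 𝔭 with hφ
        have hφF : Fixes F φ := hartF.fix 𝔭 (hcF 𝔭 hpc)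
        have eF : ∀ ψ : Q →* R, (1 - dl q (ψ (D.q φ))) * AA D ψ F 𝔤 artF =
            AA D ψ F (𝔤 * 𝔭) artF := fun ψ =>
          AA_prime D ψ le_rfl hHM hartF hcF hp hp0 hpc
        set u : ArithmeticFunction R := (1 - dl q (ψp (D.q φ))) * (1 - dl q (ψm (D.q φ))) with hu
        have hX1 : u * X 𝔤 = X (𝔤 * 𝔭) := by
          simp only [hX, hu]
          rw [← eF ψp, ← eF ψm]
          ring
        have hlF : Fixes F (D.lift (D.q φ)) := D.lift_fix _
        have hKiff : Fixes K (D.lift (D.q φ)) ↔ Fixes K φ :=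
          D.fix_iff hKH hlF hφF (D.q_lift _)
        have hX2 : u * X' 𝔤 = X' (𝔤 * 𝔭) := by
          have hmap : (𝔤 * 𝔭).map (inc hFK) = 𝔤.map (inc hFK) * 𝔭.map (inc hFK) := Ideal.map_mul _ _ _
          simp only [hX']
          rw [hmap]
          rcases rel_local hFK hdeg (hKH.trans hHM) hst hU hartF hartK hp hp0 (hcF 𝔭 hpc) with
            ⟨P, hPp, hP0, hPN, hPmap, hPart, hnf⟩ |
            ⟨P, P', hPp, hP0, hPp', hP0', hne, hPN, hPN', hPmap, hPart, hPart', hfx⟩
          · -- inert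
            have hPc : IsCoprime P (𝔤.map (inc hFK)) := by
              have h3 : IsCoprime (𝔭.map (inc hFK)) (𝔤.map (inc hFK)) := by
                rw [Ideal.isCoprime_iff_sup_eq, ← Ideal.map_sup,
                  Ideal.isCoprime_iff_sup_eq.1 hpc, Ideal.map_top]
              rwa [hPmap] at h3
            have h4 := AA_prime D ψp hFK hHM hartK hcK hPp hP0 hPc
            rw [hPmap, ← h4, hPN]
            congr 1
            have hPF : Fixes F (artK P) := Fixes.mono hFK (hartK.fix P (hcK P hPc))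
            have h5 : D.q (artK P) = D.q φ * D.q φ := by
              rw [← D.q_mul _ _ hφF hφF, D.q_eq _ _ hPF (hφF.mul hφF)]
              intro x hx
              exact hPart x (hHM hx)
            rw [hu, h5, map_mul, h2 (D.q φ) (fun h => hnf (hKiff.1 h)), dl_neg, sub_neg_eq_add,
              pow_two, ← dl_mul (by omega)]
            ring
          · -- split
            have hPc0 : IsCoprime (𝔭.map (inc hFK)) (𝔤.map (inc hFK)) := by
              rw [Ideal.isCoprime_iff_sup_eq, ← Ideal.map_sup,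
                Ideal.isCoprime_iff_sup_eq.1 hpc, Ideal.map_top]
            rw [hPmap, IsCoprime.mul_left_iff] at hPc0
            obtain ⟨hPc, hPc'⟩ := hPc0
            have hPc2 : IsCoprime P' (𝔤.map (inc hFK) * P) := by
              refine IsCoprime.mul_right hPc' ?_
              rw [isCoprime_prime_iff hPp hP0]
              intro h5
              exact hne ((hPp'.isMaximal hP0').eq_of_le hPp.ne_top h5).symm
            have hcK2 : ∀ 𝔟 : Ideal (𝓞 K), IsCoprime 𝔟 (𝔤.map (inc hFK) * P) →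
                IsCoprime 𝔟 (Ideal.span {(f : 𝓞 K)}) :=
              fun 𝔟 h => hcK 𝔟 (IsCoprime.mul_right_iff.1 h).1
            have h4 := AA_prime D ψp hFK hHM hartK hcK hPp hP0 hPc
            have h5 := AA_prime D ψp hFK hHM hartK hcK2 hPp' hP0' hPc2
            have hPF : Fixes F (artK P) := Fixes.mono hFK (hartK.fix P (hcK P hPc))
            have hPF' : Fixes F (artK P') := Fixes.mono hFK (hartK.fix P' (hcK P' hPc'))
            have h6 : D.q (artK P) = D.q φ := by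
              rw [D.q_eq _ _ hPF hφF]
              exact fun x hx => hPart x (hHM hx)
            have h7 : D.q (artK P') = D.q φ := by
              rw [D.q_eq _ _ hPF' hφF]
              exact fun x hx => hPart' x (hHM hx)
            rw [hPmap, ← mul_assoc, ← h5, ← h4, h6, h7, hPN, hPN', hu,
              h1 (D.q φ) (hKiff.2 hfx)]
            ring
        have hu1 : u 1 = 1 := by
          rw [hu, ArithmeticFunction.mul_apply]
          simp [af_sub, dl_apply, hq1.ne]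
        refine zero_of_mul hu1 fun m hm hmn => ?_
        have h3 := hind m hm hmn
        rw [← hX1, ← hX2, ← mul_sub] at h3
        exact h3
      · -- no primes
        have hno : ∀ 𝔭 : Ideal (𝓞 F), 𝔭.IsPrime → 𝔭 ≠ ⊥ → Ideal.absNorm 𝔭 ≤ n →
            ¬ IsCoprime 𝔭 𝔤 := fun 𝔭 a b c d => hE ⟨𝔭, a, b, c, d⟩
        have hnoK : ∀ P : Ideal (𝓞 K), P.IsPrime → P ≠ ⊥ → Ideal.absNorm P ≤ n →
            ¬ IsCoprime P (𝔤.map (inc hFK)) := by
          intro P hP hP0 hPn hPc
          obtain ⟨h3, h4, h5⟩ := prime_below hFK hP hP0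
          have h6 := hno _ h3 h4 (h5.trans hPn)
          rw [isCoprime_comm, isCoprime_prime_iff h3 h4, not_not] at h6
          rw [isCoprime_comm, isCoprime_prime_iff hP hP0] at hPc
          exact hPc (Ideal.map_le_iff_le_comap.2 h6)
        intro m hm hmn
        rw [af_sub, sub_eq_zero]
        simp only [hX, hX']
        rw [AA_base D ψp hHM hartK hnoK hm hmn, ArithmeticFunction.mul_apply,
          Finset.sum_eq_single (1, m)]
        · show AA D ψp F 𝔤 artF 1 * AA D ψm F 𝔤 artF m = _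
          rw [AA_base D ψp hHM hartF hno one_ne_zero (by omega),
            AA_base D ψm hHM hartF hno hm hmn, if_pos rfl, one_mul]
        · rintro ⟨a, b⟩ hab hne2
          rw [Nat.mem_divisorsAntidiagonal] at hab
          have ha : a ≠ 0 := by rintro rfl; exact hm (by rw [← hab.1]; simp)
          have hb : b ≠ 0 := by rintro rfl; exact hm (by rw [← hab.1]; simp)
          have ham : a ≤ m := by
            rw [← hab.1]
            exact Nat.le_mul_of_pos_right _ (Nat.pos_of_ne_zero hb)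
          show AA D ψp F 𝔤 artF a * AA D ψm F 𝔤 artF b = 0
          rw [AA_base D ψp hHM hartF hno ha (ham.trans hmn), if_neg, zero_mul]
          rintro rfl
          exact hne2 (by rw [← hab.1]; simp)
        · intro h3
          exact absurd (Nat.mem_divisorsAntidiagonal.2 ⟨by simp, hm⟩) h3
  have h3 := key _ (Ideal.span {(f : 𝓞 F)}) dvd_rfl rfl n hn le_rfl
  rw [af_sub, sub_eq_zero] at h3
  simp only [hX, hX', hmapf] at h3
  exact h3

end

end Pool.Agent.J4.H48.BC
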