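import Pool.Agent.J4.H48.BC.Coef

/-! Products over representatives of cosets. -/

set_option autoImplicit false
set_option linter.style.haveILetI false
set_option linter.unusedSectionVars false

namespace Pool.Agent.J4.H48.BC
open NumberField Module IntermediateField Pool.Agent.K4H33.SK Pool.Agent.J4.H48.RQ

section prod

variable {Q : Type} [CommGroup Q] [Fintype Q] (V : Subgroup Q) {A : Type} [CommMonoid A]

/-- The product over representatives of the cosets of `V`. -/
noncomputable def hp (φ : Q → A) : A := ∏ᶠ k : Q ⧸ V, φ (Quotient.out k)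

variable {V}

lemma out_inv {φ : Q → A} (hφ : ∀ v ∈ V, ∀ x, φ (v * x) = φ x) (x : Q) :
    φ (Quotient.out (x : Q ⧸ V)) = φ x := by
  obtain ⟨h, hh⟩ := QuotientGroup.mk_out_eq_mul V x
  rw [hh, mul_comm]
  exact hφ _ h.2 x

lemma hp_shift {φ : Q → A} (hφ : ∀ v ∈ V, ∀ x, φ (v * x) = φ x) (a : Q) :
    hp V (fun x => φ (a * x)) = hp V φ := by
  classical
  haveI : Fintype (Q ⧸ V) := Fintype.ofFinite _
  unfold hp
  rw [finprod_eq_prod_of_fintype, finprod_eq_prod_of_fintype,
    ← Equiv.prod_comp (MulAction.toPerm a : Equiv.Perm (Q ⧸ V))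
      (fun k : Q ⧸ V => φ (Quotient.out k))]
  refine Finset.prod_congr rfl fun k _ => ?_
  have h1 : (MulAction.toPerm a : Equiv.Perm (Q ⧸ V)) k =
      ((a * Quotient.out k : Q) : Q ⧸ V) := by
    conv_lhs => rw [← QuotientGroup.out_eq' k]
    rfl
  rw [h1, out_inv hφ]

lemma hp_card {φ : Q → A} (hφ : ∀ v ∈ V, ∀ x, φ (v * x) = φ x) :
    hp V φ ^ Nat.card V = ∏ x, φ x := by
  classical
  haveI : Fintype (Q ⧸ V) := Fintype.ofFinite _
  haveI : Fintype V := Fintype.ofFinite _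
  have hm : ∀ (k : Q ⧸ V) (v : V), ((Quotient.out k * (v : Q) : Q) : Q ⧸ V) = k := by
    intro k v
    rw [QuotientGroup.mk_mul_of_mem _ v.2]
    exact QuotientGroup.out_eq' k
  let e : (Q ⧸ V) × V ≃ Q :=
    { toFun := fun p => Quotient.out p.1 * (p.2 : Q)
      invFun := fun x => ((x : Q ⧸ V), ⟨(Quotient.out (x : Q ⧸ V))⁻¹ * x, by
        rw [← QuotientGroup.eq]
        exact QuotientGroup.out_eq' _⟩)
      left_inv := fun p => by
        refine Prod.ext (hm _ _) (Subtype.ext ?_)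
        show (Quotient.out ((Quotient.out p.1 * (p.2 : Q) : Q) : Q ⧸ V))⁻¹ *
          (Quotient.out p.1 * (p.2 : Q)) = (p.2 : Q)
        rw [hm, inv_mul_cancel_left]
      right_inv := fun x => by
        show Quotient.out (x : Q ⧸ V) * ((Quotient.out (x : Q ⧸ V))⁻¹ * x) = x
        rw [mul_inv_cancel_left] }
  unfold hp
  rw [finprod_eq_prod_of_fintype, ← Equiv.prod_comp e, Fintype.prod_prod_type,
    ← Finset.prod_pow]
  refine Finset.prod_congr rfl fun k _ => ?_
  have h1 : ∀ v : V, φ (e (k, v)) = φ (Quotient.out k) := by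
    intro v
    show φ (Quotient.out k * (v : Q)) = _
    rw [mul_comm]
    exact hφ _ v.2 _
  simp only [h1]
  rw [Finset.prod_const, Finset.card_univ, Nat.card_eq_fintype_card]

lemma card_closure {b b₂ : Q} (h1 : b * b = 1) (h2 : b₂ * b₂ = 1) (hb : b ≠ 1) (hb₂ : b₂ ≠ 1)
    (hne : b ≠ b₂) : Nat.card (Subgroup.closure {b, b₂}) = 4 := by
  classical
  have hs : ((Subgroup.closure {b, b₂} : Subgroup Q) : Set Q) = {1, b, b₂, b * b₂} := by
    ext x
    simp only [Set.mem_insert_iff, Set.mem_singleton_iff, SetLike.mem_coe]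
    constructor
    · intro h
      exact closure_two h1 h2 (mul_comm _ _) h
    · have hbm : b ∈ Subgroup.closure {b, b₂} := Subgroup.subset_closure (Set.mem_insert _ _)
      have hbm₂ : b₂ ∈ Subgroup.closure {b, b₂} :=
        Subgroup.subset_closure (Set.mem_insert_of_mem _ rfl)
      rintro (rfl | rfl | rfl | rfl)
      · exact Subgroup.one_mem _
      · exact hbm
      · exact hbm₂
      · exact Subgroup.mul_mem _ hbm hbm₂
  have h3 : Nat.card (Subgroup.closure {b, b₂}) =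
      ((Subgroup.closure {b, b₂} : Subgroup Q) : Set Q).ncard := rfl
  rw [h3, hs]
  have n1 : (1 : Q) ∉ ({b, b₂, b * b₂} : Set Q) := by
    simp only [Set.mem_insert_iff, Set.mem_singleton_iff]
    rintro (h | h | h)
    · exact hb h.symm
    · exact hb₂ h.symm
    · apply hne
      have h4 : b * b = b * b₂ := by rw [h1, h]
      exact mul_left_cancel h4
  have n2 : b ∉ ({b₂, b * b₂} : Set Q) := by
    simp only [Set.mem_insert_iff, Set.mem_singleton_iff]
    rintro (h | h)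
    · exact hne h
    · exact hb₂ (mul_eq_left.1 h.symm)
  have n3 : b₂ ∉ ({b * b₂} : Set Q) := by
    simp only [Set.mem_singleton_iff]
    intro h
    exact hb (mul_eq_right.1 h.symm)
  rw [Set.ncard_insert_of_notMem n1, Set.ncard_insert_of_notMem n2,
    Set.ncard_insert_of_notMem n3, Set.ncard_singleton]

end prod

section Unit

variable {Q : Type} [CommGroup Q] [Fintype Q] {V : Subgroup Q} {E : Q → Qbar}

/-- The product of the `E x` with exponents `t (x⁻¹)` over representatives. -/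
noncomputable def mm (V : Subgroup Q) (E : Q → Qbar) (t : Q → ℤ) : Qbar :=
  hp V (fun x => E x ^ t x⁻¹)

lemma mm_eq [Fintype (Q ⧸ V)] (t : Q → ℤ) :
    mm V E t = ∏ k : Q ⧸ V, E (Quotient.out k) ^ t (Quotient.out k)⁻¹ := by
  unfold mm hp
  rw [finprod_eq_prod_of_fintype]

lemma mm_ne (hE : ∀ x, E x ≠ 0) (t : Q → ℤ) : mm V E t ≠ 0 := by
  classical
  haveI : Fintype (Q ⧸ V) := Fintype.ofFinite _
  rw [mm_eq]
  exact Finset.prod_ne_zero_iff.2 fun _ _ => zpow_ne_zero _ (hE _)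

lemma mm_add (hE : ∀ x, E x ≠ 0) (t t' : Q → ℤ) : mm V E (t + t') = mm V E t * mm V E t' := by
  classical
  haveI : Fintype (Q ⧸ V) := Fintype.ofFinite _
  simp only [mm_eq, Pi.add_apply, zpow_add₀ (hE _), Finset.prod_mul_distrib]

lemma mm_neg (t : Q → ℤ) : mm V E (-t) = (mm V E t)⁻¹ := by
  classical
  haveI : Fintype (Q ⧸ V) := Fintype.ofFinite _
  simp only [mm_eq, Pi.neg_apply, zpow_neg, Finset.prod_inv_distrib]

lemma mm_pow (n : ℕ) (t : Q → ℤ) : mm V E t ^ n = mm V E (fun x => n * t x) := by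
  classical
  haveI : Fintype (Q ⧸ V) := Fintype.ofFinite _
  simp only [mm_eq, ← Finset.prod_pow]
  refine Finset.prod_congr rfl fun b _ => ?_
  rw [← zpow_natCast, ← zpow_mul, mul_comm]

/-- The exponents which are compatible with `V`. -/
def Good (V : Subgroup Q) (E : Q → Qbar) (t : Q → ℤ) : Prop :=
  ∀ v ∈ V, ∀ x, E (v * x) ^ t (v * x)⁻¹ = E x ^ t x⁻¹

lemma mm_act {τ : GQ} {y : Q} (h : ∀ x, τ (E x) = E (y * x)) {t : Q → ℤ}
    (ht : Good V E (fun x => t (y * x))) : τ (mm V E t) = mm V E (fun x => t (y * x)) := by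
  classical
  haveI : Fintype (Q ⧸ V) := Fintype.ofFinite _
  have h1 : mm V E (fun x => t (y * x)) = hp V (fun x => E (y * x) ^ t (y * (y * x)⁻¹)) := by
    symm
    exact hp_shift (φ := fun x => E x ^ t (y * x⁻¹)) ht y
  rw [h1, mm_eq]
  unfold hp
  rw [finprod_eq_prod_of_fintype, map_prod]
  refine Finset.prod_congr rfl fun k _ => ?_
  show τ (E (Quotient.out k) ^ t (Quotient.out k)⁻¹) =
    E (y * Quotient.out k) ^ t (y * (y * Quotient.out k)⁻¹)
  rw [map_zpow₀, h, mul_inv, mul_inv_cancel_left]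

lemma good_of {b b₂ : Q} (hV : V = Subgroup.closure {b, b₂}) (hb : ∀ x, E (b * x) = E x)
    (hb₂ : ∀ x, E (b₂ * x) = (E x)⁻¹) (h1 : b * b = 1) (h2 : b₂ * b₂ = 1) {t : Q → ℤ}
    (ht : ∀ x, t (b * x) = t x) (ht₂ : ∀ x, t (b₂ * x) = -t x) : Good V E t := by
  subst hV
  have hbi : b⁻¹ = b := inv_eq_of_mul_eq_one_left h1
  have hbi₂ : b₂⁻¹ = b₂ := inv_eq_of_mul_eq_one_left h2
  intro v hv
  induction hv using Subgroup.closure_induction with
  | mem v hv =>
    rcases hv with rfl | rfl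
    · intro x
      rw [hb, mul_inv, hbi, ht]
    · intro x
      rw [hb₂, mul_inv, hbi₂, ht₂, inv_zpow, zpow_neg, inv_inv]
  | one => intro x; rw [one_mul]
  | mul v w _ _ hv hw => intro x; rw [mul_assoc, hv, hw]
  | inv v _ hv =>
    intro x
    have h3 := hv (v⁻¹ * x)
    rw [mul_inv_cancel_left] at h3
    exact h3.symm

lemma mm_log (w : Qbar →+* ℂ) (hE : ∀ x, E x ≠ 0) {t : Q → ℤ} (ht : Good V E t) :
    (Nat.card V : ℝ) * Real.log ‖w (mm V E t)‖ =
      ∑ x : Q, (t x⁻¹ : ℝ) * Real.log ‖w (E x)‖ := by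
  have h1 := hp_card (φ := fun x => E x ^ t x⁻¹) ht
  have h2 : mm V E t ^ Nat.card V = ∏ x, E x ^ t x⁻¹ := h1
  have h3 := congrArg (fun y => Real.log ‖w y‖) h2
  simp only [map_pow, norm_pow, Real.log_pow, map_prod, norm_prod] at h3
  rw [h3, Real.log_prod]
  · refine Finset.sum_congr rfl fun x _ => ?_
    rw [map_zpow₀, norm_zpow, Real.log_zpow]
  · intro x _
    rw [map_zpow₀, norm_zpow]
    have : w (E x) ≠ 0 := by
      rw [Ne, map_eq_zero]
      exact hE x
    exact zpow_ne_zero _ (norm_ne_zero_iff.2 this)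

lemma mm_integral (h : ∀ x, IsIntegral ℤ (E x)) (h' : ∀ x, IsIntegral ℤ (E x)⁻¹) (t : Q → ℤ) :
    IsIntegral ℤ (mm V E t) := by
  classical
  haveI : Fintype (Q ⧸ V) := Fintype.ofFinite _
  rw [mm_eq]
  exact IsIntegral.prod _ fun _ _ => isIntegral_zpow (h _) (h' _) _

lemma mm_norm {w : Qbar →+* ℂ} (h : ∀ x, ‖w (E x)‖ = 1) (t : Q → ℤ) : ‖w (mm V E t)‖ = 1 := by
  classical
  haveI : Fintype (Q ⧸ V) := Fintype.ofFinite _
  rw [mm_eq, map_prod, norm_prod]
  refine Finset.prod_eq_one fun k _ => ?_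
  rw [map_zpow₀, norm_zpow, h, one_zpow]

lemma mm_mem {H : IntermediateField ℚ Qbar} (h : ∀ x, E x ∈ H) (t : Q → ℤ) : mm V E t ∈ H := by
  classical
  haveI : Fintype (Q ⧸ V) := Fintype.ofFinite _
  rw [mm_eq]
  exact prod_mem fun _ _ => zpow_mem (h _) _

lemma mm_zero : mm V E (fun _ => 0) = 1 := by
  classical
  haveI : Fintype (Q ⧸ V) := Fintype.ofFinite _
  rw [mm_eq]
  simp

end Unit

end Pool.Agent.J4.H48.BC
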